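import Mathlib

set_option autoImplicit false

open Set Filter Topology

/-!
All continuous solutions `f : ℝ → ℝ` of `f (x + f x) = f x + f (f x)`.

Outline.  Put `F x = x + f x`; the equation says that `F` and `f` commute.
* Log-convexity along orbits: if `Φ` (surjective) and `φ` commute and `h > 0` satisfies
  `h ∘ Φ = h + h ∘ φ`, then `h (φ x) ^ 2 ≤ h x * h (φ (φ x))` (`lc1`); the same when
  `h = h ∘ Φ + h ∘ φ` (`lc2`).
* Rigidity (`expand`): if `Φ x = ± x + φ x` commutes with the continuous `φ` and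
  `|Φ x| = |x| + |φ x|`, then `φ` is linear.  One shows that `Φ` is injective by a moment
  argument, and that `|φ x| / |x|` is constant by comparing orbits.  `contract` is the
  corresponding statement when `|x| = |F x| + |f x|`.
* A solution that is nonnegative on the right half-line, or nonpositive on the left one, has
  nonnegative slopes on both sides.  Otherwise `x * f x < 0` for every nonzero `x`, and `f` is
  linear.
-/

namespace Pool.Agent.Results.MP_12983e_an.AllSolutions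

/-! ### Abstract log-convexity -/

lemma core0 {s0 s1 s2 i : ℝ} (p0 : 0 < s0) (q0 : s0 < 1) (p1 : 0 < s1) (q1 : s1 < 1)
    (p2 : 0 < s2) (q2 : s2 < 1) (hi : 0 < i) (hi1 : i ≤ 1)
    (e0 : -i ≤ s0 - s1) (e1 : -i ≤ s1 - s2) :
    -(i - i ^ 2 / 8) ≤ s1 / (1 - (s0 - s1)) - s2 / (1 - (s1 - s2)) := by
  set E0 := s0 - s1 with hE0
  set E1 := s1 - s2 with hE1
  set D0 := 1 - E0 with hD0
  set D1 := 1 - E1 with hD1
  have d0 : 0 < D0 := by rw [hD0, hE0]; linarith
  have d1 : 0 < D1 := by rw [hD1, hE1]; linarith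
  have d1' : D1 ≤ 2 := by rw [hD1, hE1]; linarith
  set K := i - i ^ 2 / 8 with hK
  have hK0 : 0 ≤ K := by rw [hK]; nlinarith
  have hK1 : K ≤ 1 := by rw [hK]; nlinarith
  have key : 0 ≤ ((1 - s1) * E1 + s2 * E0) + K * (D0 * D1) := by
    rcases le_or_gt 0 E0 with h | h
    · have hn : (1 - s1) * E1 + s2 * E0 = E1 * (1 - s0) + s1 * E0 := by
        rw [hE0, hE1]; ring
      rw [hn]
      rcases le_or_gt 0 E1 with h' | h'
      · have : 0 ≤ 1 - s0 := by linarith
        positivity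
      · have h1 : E1 * D0 ≤ E1 * (1 - s0) := by
          apply mul_le_mul_of_nonpos_left _ h'.le
          rw [hD0]; linarith
        have h2 : 0 ≤ K + E1 * (1 - K) := by
          have h3 : -i * (1 - K) ≤ E1 * (1 - K) :=
            mul_le_mul_of_nonneg_right e1 (by linarith)
          have h4 : 0 ≤ K - i * (1 - K) := by
            have : K - i * (1 - K) = i ^ 2 * (7 / 8 - i / 8) := by rw [hK]; ring
            rw [this]
            have : 0 ≤ 7 / 8 - i / 8 := by linarith
            positivity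
          linarith
        have h5 : 0 ≤ D0 * (K + E1 * (1 - K)) := by positivity
        have h6 : D0 * (K + E1 * (1 - K)) = E1 * D0 + K * (D0 * D1) := by rw [hD1]; ring
        have h7 : 0 ≤ s1 * E0 := by positivity
        linarith
    · have hs : 1 - s1 + s2 = D1 := by rw [hD1, hE1]; ring
      have hs1 : 0 ≤ 1 - s1 := by linarith
      rcases le_or_gt E0 (-i / 2) with h1 | h1
      · have h2 : (1 - s1) * (-i) ≤ (1 - s1) * E1 := mul_le_mul_of_nonneg_left e1 hs1
        have h3 : s2 * (-i) ≤ s2 * E0 := mul_le_mul_of_nonneg_left e0 p2.le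
        have h4 : -i * D1 ≤ (1 - s1) * E1 + s2 * E0 := by rw [← hs]; linarith
        have h5 : i ≤ K * D0 := by
          have h6 : K * (1 + i / 2) ≤ K * D0 := by
            apply mul_le_mul_of_nonneg_left _ hK0
            rw [hD0]; linarith
          have h7 : K * (1 + i / 2) - i = i ^ 2 * (3 / 8 - i / 16) := by rw [hK]; ring
          have h8 : 0 ≤ i ^ 2 * (3 / 8 - i / 16) := by
            have : 0 ≤ 3 / 8 - i / 16 := by linarith
            positivity
          linarith
        have h9 : i * D1 ≤ (K * D0) * D1 := mul_le_mul_of_nonneg_right h5 d1.le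
        nlinarith
      · have hD01 : 1 ≤ D0 := by rw [hD0]; linarith
        have h9 : K * D1 ≤ K * (D0 * D1) := by
          apply mul_le_mul_of_nonneg_left _ hK0
          nlinarith
        rcases le_or_gt (-i / 2) E1 with h2 | h2
        · have h3 : (1 - s1) * (-i / 2) ≤ (1 - s1) * E1 := mul_le_mul_of_nonneg_left h2 hs1
          have h4 : s2 * (-i / 2) ≤ s2 * E0 := mul_le_mul_of_nonneg_left h1.le p2.le
          have h5 : -i / 2 * D1 ≤ (1 - s1) * E1 + s2 * E0 := by rw [← hs]; linarith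
          have h6 : i / 2 * D1 ≤ K * D1 := by
            apply mul_le_mul_of_nonneg_right _ d1.le
            rw [hK]; nlinarith
          linarith
        · have h3 : (1 - s1) * (-i) ≤ (1 - s1) * E1 := mul_le_mul_of_nonneg_left e1 hs1
          have h4 : s2 * (-i / 2) ≤ s2 * E0 := mul_le_mul_of_nonneg_left h1.le p2.le
          have h5 : i / 2 ≤ s2 := by linarith
          have h6 : i / 2 * (i / 2) ≤ i / 2 * s2 := mul_le_mul_of_nonneg_left h5 (by positivity)
          have h7 : K * D1 = i * D1 - i ^ 2 / 8 * D1 := by rw [hK]; ring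
          have h8 : i ^ 2 / 8 * D1 ≤ i ^ 2 / 8 * 2 := mul_le_mul_of_nonneg_left d1' (by positivity)
          have h10 : -i * D1 + i / 2 * s2 ≤ (1 - s1) * E1 + s2 * E0 := by rw [← hs]; linarith
          nlinarith
  have hid : s1 / D0 - s2 / D1 = ((1 - s1) * E1 + s2 * E0) / (D0 * D1) := by
    rw [div_sub_div _ _ d0.ne' d1.ne']
    congr 1
    rw [hD0, hD1, hE0, hE1]; ring
  rw [hid, le_div_iff₀ (mul_pos d0 d1)]
  linarith

lemma lc1 {X : Type*} (Φ φ : X → X) (hsurj : Function.Surjective Φ)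
    (hcomm : ∀ x, Φ (φ x) = φ (Φ x)) (h : X → ℝ) (hpos : ∀ x, 0 < h x)
    (hadd : ∀ x, h (Φ x) = h x + h (φ x)) (x : X) :
    h (φ x) ^ 2 ≤ h x * h (φ (φ x)) := by
  set σ : X → ℝ := fun y => h y / (h y + h (φ y)) with hσ
  have s0 : ∀ y, 0 < σ y := fun y => div_pos (hpos y) (add_pos (hpos y) (hpos _))
  have s1 : ∀ y, σ y < 1 := fun y => by
    rw [hσ]
    simp only
    rw [div_lt_one (add_pos (hpos y) (hpos _))]
    have := hpos (φ y)
    linarith
  set e : X → ℝ := fun y => σ (φ y) - σ y with he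
  have hrec : ∀ y, σ (Φ y) = σ (φ y) / (1 - (σ y - σ (φ y))) := by
    intro y
    have a0 := hpos y
    have a1 := hpos (φ y)
    have a2 := hpos (φ (φ y))
    rw [hσ]
    simp only
    rw [← hcomm y, hadd, hadd (φ y)]
    have h1 : h y + h (φ y) ≠ 0 := by positivity
    have h2 : h (φ y) + h (φ (φ y)) ≠ 0 := by positivity
    have h3 : 1 - (h y / (h y + h (φ y)) - h (φ y) / (h (φ y) + h (φ (φ y))))
        = h (φ y) * (h y + h (φ y) + (h (φ y) + h (φ (φ y)))) /
          ((h y + h (φ y)) * (h (φ y) + h (φ (φ y)))) := by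
      field_simp
      ring
    rw [h3]
    field_simp
  have hbdd : BddAbove (range e) := by
    refine ⟨1, ?_⟩
    rintro _ ⟨y, rfl⟩
    have := s1 (φ y)
    have := s0 y
    simp only [he]
    linarith
  have hle : ∀ y, e y ≤ 0 := by
    by_contra hcon
    push Not at hcon
    obtain ⟨y, hy⟩ := hcon
    set S := sSup (range e) with hS
    have hS0 : 0 < S := lt_of_lt_of_le hy (le_csSup hbdd ⟨y, rfl⟩)
    have hS1 : S ≤ 1 := by
      refine csSup_le ⟨_, ⟨y, rfl⟩⟩ ?_
      rintro _ ⟨w, rfl⟩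
      have := s1 (φ w)
      have := s0 w
      simp only [he]
      linarith
    have hall : ∀ w, e w ≤ S - S ^ 2 / 8 := by
      intro w
      obtain ⟨v, rfl⟩ := hsurj w
      have h1 := le_csSup hbdd (mem_range_self v)
      have h2 := le_csSup hbdd (mem_range_self (φ v))
      rw [← hS] at h1 h2
      simp only [he] at h1 h2
      have := core0 (s0 v) (s1 v) (s0 (φ v)) (s1 (φ v)) (s0 (φ (φ v))) (s1 (φ (φ v))) hS0 hS1
        (by linarith) (by linarith)
      simp only [he]
      rw [← hcomm, hrec, hrec]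
      linarith
    have : S ≤ S - S ^ 2 / 8 := csSup_le ⟨_, ⟨y, rfl⟩⟩ (by rintro _ ⟨w, rfl⟩; exact hall w)
    nlinarith
  have h1 := hle x
  simp only [he, hσ] at h1
  have a0 := hpos x
  have a1 := hpos (φ x)
  have a2 := hpos (φ (φ x))
  have h2 : h (φ x) / (h (φ x) + h (φ (φ x))) ≤ h x / (h x + h (φ x)) := by linarith
  rw [div_le_div_iff₀ (by positivity) (by positivity)] at h2
  nlinarith

/-- nonnegative version -/
lemma lc1' {X : Type*} (Φ φ : X → X) (hsurj : Function.Surjective Φ)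
    (hcomm : ∀ x, Φ (φ x) = φ (Φ x)) (k : X → ℝ) (kpos : ∀ x, 0 < k x)
    (kadd : ∀ x, k (Φ x) = k x + k (φ x)) (h : X → ℝ) (hpos : ∀ x, 0 ≤ h x)
    (hadd : ∀ x, h (Φ x) = h x + h (φ x)) (x : X) :
    h (φ x) ^ 2 ≤ h x * h (φ (φ x)) := by
  have key : ∀ η : ℝ, 0 < η → (h (φ x) + η * k (φ x)) ^ 2 ≤
      (h x + η * k x) * (h (φ (φ x)) + η * k (φ (φ x))) := by
    intro η hη
    exact lc1 Φ φ hsurj hcomm (fun y => h y + η * k y)
      (fun y => by have := hpos y; have := kpos y; positivity)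
      (fun y => by simp only [hadd, kadd]; ring) x
  have hl : Tendsto (fun η : ℝ => (h (φ x) + η * k (φ x)) ^ 2) (𝓝[>] 0)
      (𝓝 ((h (φ x) + 0 * k (φ x)) ^ 2)) :=
    (Continuous.tendsto (by fun_prop) 0).mono_left nhdsWithin_le_nhds
  have hr : Tendsto (fun η : ℝ => (h x + η * k x) * (h (φ (φ x)) + η * k (φ (φ x)))) (𝓝[>] 0)
      (𝓝 ((h x + 0 * k x) * (h (φ (φ x)) + 0 * k (φ (φ x))))) :=
    (Continuous.tendsto (by fun_prop) 0).mono_left nhdsWithin_le_nhds
  have := le_of_tendsto_of_tendsto hl hr (by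
    filter_upwards [self_mem_nhdsWithin] with η hη
    exact key η hη)
  simpa using this

lemma lc2 {X : Type*} (Φ φ : X → X)
    (hcomm : ∀ x, Φ (φ x) = φ (Φ x)) (h : X → ℝ) (hpos : ∀ x, 0 < h x)
    (hadd : ∀ x, h x = h (Φ x) + h (φ x)) (x : X) :
    h (φ x) ^ 2 ≤ h x * h (φ (φ x)) := by
  set σ : X → ℝ := fun y => h (φ y) / h y with hσ
  have s0 : ∀ y, 0 < σ y := fun y => div_pos (hpos _) (hpos y)
  have s1 : ∀ y, σ y < 1 := fun y => by
    rw [hσ]
    simp only
    rw [div_lt_one (hpos y)]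
    have := hpos (Φ y)
    have := hadd y
    linarith
  set e : X → ℝ := fun y => σ y - σ (φ y) with he
  have hav : ∀ y, σ y = (1 - σ y) * σ (Φ y) + σ y * σ (φ y) := by
    intro y
    have a0 := (hpos y).ne'
    have a1 := (hpos (φ y)).ne'
    have a2 := (hpos (Φ y)).ne'
    have h1 : h (Φ y) = h y - h (φ y) := by have := hadd y; linarith
    have h2 : h (φ (Φ y)) = h (φ y) - h (φ (φ y)) := by
      have := hadd (φ y)
      rw [hcomm] at this
      linarith
    have h3 : (1 - σ y) = h (Φ y) / h y := by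
      rw [h1]
      simp only [hσ]
      field_simp
    rw [h3]
    simp only [hσ]
    rw [h2]
    field_simp
    ring
  have hbdd : BddAbove (range e) := by
    refine ⟨1, ?_⟩
    rintro _ ⟨y, rfl⟩
    have := s1 y
    have := s0 (φ y)
    simp only [he]
    linarith
  have hle : ∀ y, e y ≤ 0 := by
    by_contra hcon
    push Not at hcon
    obtain ⟨y, hy⟩ := hcon
    set S := sSup (range e) with hS
    have hS0 : 0 < S := lt_of_lt_of_le hy (le_csSup hbdd ⟨y, rfl⟩)
    have hall : ∀ w, e w * (1 + e w) ≤ S ∨ e w ≤ 0 := by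
      intro w
      rcases le_or_gt (e w) 0 with hw | hw
      · exact Or.inr hw
      left
      have h1 := le_csSup hbdd (mem_range_self (Φ w))
      have h2 := le_csSup hbdd (mem_range_self (φ w))
      rw [← hS] at h1 h2
      have a0 := hav w
      have a1 := hav (φ w)
      rw [hcomm] at a1
      have b0 := s0 w
      have b1 := s1 w
      have c0 := s0 (φ w)
      have c1 := s1 (φ w)
      simp only [he] at h1 h2 hw ⊢
      set x0 := σ w
      set x1 := σ (φ w)
      set xF := σ (Φ w)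
      set xfF := σ (φ (Φ w))
      set x2 := σ (φ (φ w))
      -- `xF ≥ x0`
      have hF : x0 ≤ xF := by
        have h3 : (1 - x0) * xF = x0 * (1 - x1) := by linarith
        have h4 : (1 - x0) * x0 ≤ (1 - x0) * xF := by
          rw [h3]
          nlinarith
        exact le_of_mul_le_mul_left h4 (by linarith)
      -- `(x0 - x1) (1 - x1 + xF) = (1 - x1) (xF - xfF) + x1 (x1 - x2)`
      have hid : (x0 - x1) * (1 - x1 + xF) = (1 - x1) * (xF - xfF) + x1 * (x1 - x2) := by
        nlinarith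
      have h5 : (1 - x1) * (xF - xfF) ≤ (1 - x1) * S :=
        mul_le_mul_of_nonneg_left h1 (by linarith)
      have h6 : x1 * (x1 - x2) ≤ x1 * S := mul_le_mul_of_nonneg_left h2 c0.le
      have h7 : (x0 - x1) * (1 + (x0 - x1)) ≤ (x0 - x1) * (1 - x1 + xF) := by
        apply mul_le_mul_of_nonneg_left _ hw.le
        linarith
      linarith
    have hS2 : S ≤ S / (1 + S / 2) := by
      refine csSup_le ⟨_, ⟨y, rfl⟩⟩ ?_
      rintro _ ⟨w, rfl⟩
      have hS3 : 0 < 1 + S / 2 := by positivity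
      rw [le_div_iff₀ hS3]
      have hw1 := le_csSup hbdd (mem_range_self w)
      rw [← hS] at hw1
      rcases hall w with h1 | h1
      · rcases le_or_gt (e w) (S / 2) with h2 | h2
        · have hS1 : S ≤ 1 := by
            refine csSup_le ⟨_, ⟨y, rfl⟩⟩ ?_
            rintro _ ⟨v, rfl⟩
            have := s1 v
            have := s0 (φ v)
            simp only [he]
            linarith
          nlinarith
        · nlinarith
      · nlinarith
    have hS3 : 0 < 1 + S / 2 := by positivity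
    rw [le_div_iff₀ hS3] at hS2
    nlinarith
  have h1 := hle x
  simp only [he, hσ] at h1
  have a0 := hpos x
  have a1 := hpos (φ x)
  have h2 : h (φ x) / h x ≤ h (φ (φ x)) / h (φ x) := by linarith
  rw [div_le_div_iff₀ a0 a1] at h2
  nlinarith

/-! ### The expanding case -/

structure EX (φ Φ : ℝ → ℝ) : Prop where
  cφ : Continuous φ
  cΦ : Continuous Φ
  ab : ∀ x, |Φ x| = |x| + |φ x|
  cm : ∀ x, Φ (φ x) = φ (Φ x)
  ne : ∀ x, x ≠ 0 → φ x ≠ 0
  z : φ 0 = 0
  sj : Function.Surjective Φ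

namespace EX

variable {φ Φ : ℝ → ℝ}

lemma Z (E : EX φ Φ) : Φ 0 = 0 := by
  have := E.ab 0
  rw [E.z] at this
  simpa using this

lemma NE (E : EX φ Φ) {x : ℝ} (hx : x ≠ 0) : Φ x ≠ 0 := by
  have h1 := E.ab x
  have h2 : 0 < |x| := abs_pos.mpr hx
  have h3 : 0 ≤ |φ x| := abs_nonneg _
  intro h
  rw [h, abs_zero] at h1
  linarith

lemma lc (E : EX φ Φ) (h : ℝ → ℝ) (hp : ∀ x, 0 ≤ h x)
    (hadd : ∀ x, h (Φ x) = h x + h (φ x)) (x : ℝ) : h (φ x) ^ 2 ≤ h x * h (φ (φ x)) := by
  rcases eq_or_ne x 0 with rfl | hx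
  · rw [E.z, E.z]
    nlinarith
  · let Φ' : {x : ℝ // x ≠ 0} → {x : ℝ // x ≠ 0} := fun y => ⟨Φ y.1, E.NE y.2⟩
    let φ' : {x : ℝ // x ≠ 0} → {x : ℝ // x ≠ 0} := fun y => ⟨φ y.1, E.ne y.1 y.2⟩
    have := lc1' Φ' φ' ?_ ?_ (fun y => |y.1|) ?_ ?_ (fun y => h y.1) ?_ ?_ ⟨x, hx⟩
    · exact this
    · rintro ⟨y, hy⟩
      obtain ⟨w, hw⟩ := E.sj y
      have hw0 : w ≠ 0 := by
        rintro rfl
        rw [E.Z] at hw
        exact hy hw.symm
      exact ⟨⟨w, hw0⟩, Subtype.ext hw⟩
    · intro y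
      exact Subtype.ext (E.cm y.1)
    · intro y
      exact abs_pos.mpr y.2
    · intro y
      exact E.ab y.1
    · intro y
      exact hp y.1
    · intro y
      exact hadd y.1

lemma rmono (E : EX φ Φ) (x : ℝ) : |φ x| * |Φ x| ≤ |φ (Φ x)| * |x| := by
  have h1 := E.lc (fun y => |y|) (fun y => abs_nonneg y) E.ab x
  rw [← E.cm, E.ab, E.ab]
  nlinarith

lemma grow (E : EX φ Φ) {x γ : ℝ} (hx : x ≠ 0) (hγ : 0 ≤ γ) (h : γ * |x| ≤ |φ x|) (n : ℕ) :
    γ * |Φ^[n] x| ≤ |φ (Φ^[n] x)| ∧ (1 + γ) ^ n * |x| ≤ |Φ^[n] x| ∧ Φ^[n] x ≠ 0 := by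
  induction n with
  | zero => simpa using ⟨h, hx⟩
  | succ n ih =>
    obtain ⟨h1, h2, h3⟩ := ih
    rw [Function.iterate_succ_apply']
    set y := Φ^[n] x with hy
    have hy0 : 0 < |y| := abs_pos.mpr h3
    refine ⟨?_, ?_, E.NE h3⟩
    · have h4 := E.rmono y
      have h5 : γ * |y| * |Φ y| ≤ |φ y| * |Φ y| := mul_le_mul_of_nonneg_right h1 (abs_nonneg _)
      have h6 : (γ * |Φ y|) * |y| ≤ |φ (Φ y)| * |y| := by nlinarith
      exact le_of_mul_le_mul_right h6 hy0
    · rw [E.ab y, pow_succ]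
      have : (1 + γ) ^ n * |x| * (1 + γ) ≤ |y| * (1 + γ) :=
        mul_le_mul_of_nonneg_right h2 (by linarith)
      nlinarith

lemma back (E : EX φ Φ) {γ : ℝ} (hγ : 0 ≤ γ) (n : ℕ) : ∀ w : ℝ,
    |φ (Φ^[n] w)| ≤ γ * |Φ^[n] w| → |Φ^[n] w| ≤ (1 + γ) ^ n * |w| ∧ |φ w| ≤ γ * |w| := by
  induction n with
  | zero => intro w h; simpa using h
  | succ n ih =>
    intro w h
    rw [Function.iterate_succ_apply] at h ⊢
    obtain ⟨h1, h2⟩ := ih (Φ w) h
    rcases eq_or_ne w 0 with rfl | hw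
    · rw [E.Z] at h1 ⊢
      simp only [abs_zero, mul_zero] at h1 ⊢
      exact ⟨h1, by rw [E.z]; simp⟩
    · have h3 := E.rmono w
      have hw0 : 0 < |Φ w| := abs_pos.mpr (E.NE hw)
      have h4 : |φ w| ≤ γ * |w| := by
        have h5 : |φ (Φ w)| * |w| ≤ γ * |Φ w| * |w| :=
          mul_le_mul_of_nonneg_right h2 (abs_nonneg _)
        have h6 : |φ w| * |Φ w| ≤ (γ * |w|) * |Φ w| := by nlinarith
        exact le_of_mul_le_mul_right h6 hw0
      refine ⟨h1.trans ?_, h4⟩
      rw [E.ab w, pow_succ]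
      have h7 : |w| + |φ w| ≤ (1 + γ) * |w| := by linarith
      have h8 : (0 : ℝ) ≤ (1 + γ) ^ n := by positivity
      nlinarith [mul_le_mul_of_nonneg_left h7 h8]

lemma bdd (E : EX φ Φ) : ∃ B : ℝ, 0 < B ∧ ∀ x, |x| ≤ 1 → |φ x| ≤ B * |x| := by
  obtain ⟨B, hB⟩ := (isCompact_Icc (a := (-1 : ℝ)) (b := 1)).exists_bound_of_continuousOn
    E.cφ.continuousOn
  have hB0 : 0 ≤ B := (norm_nonneg _).trans (hB 0 (by norm_num))
  obtain ⟨C, hC⟩ := (isCompact_Icc (a := (-(1 + B) : ℝ)) (b := 1 + B)).exists_bound_of_continuousOn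
    E.cφ.continuousOn
  have hC0 : 0 ≤ C := (norm_nonneg _).trans (hC 0 (by constructor <;> linarith))
  refine ⟨C + 1, by linarith, ?_⟩
  intro x hx
  rcases eq_or_ne x 0 with rfl | hx0
  · rw [E.z]; simp
  have hxp : 0 < |x| := abs_pos.mpr hx0
  set γ := |φ x| / |x| with hγ
  have hγ0 : 0 < γ := div_pos (abs_pos.mpr (E.ne x hx0)) hxp
  have hγx : γ * |x| = |φ x| := by rw [hγ]; field_simp
  have hg := E.grow hx0 hγ0.le hγx.le
  have hex : ∃ n, 1 ≤ |Φ^[n] x| := by
    have ht : Tendsto (fun n : ℕ => (1 + γ) ^ n * |x|) atTop atTop :=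
      (tendsto_pow_atTop_atTop_of_one_lt (by linarith)).atTop_mul_const hxp
    obtain ⟨n, hn⟩ := (ht.eventually_ge_atTop 1).exists
    exact ⟨n, hn.trans (hg n).2.1⟩
  classical
  have hn1 := Nat.find_spec hex
  have hn2 : |Φ^[Nat.find hex] x| ≤ 1 + B := by
    rcases Nat.eq_zero_or_pos (Nat.find hex) with h0 | h0
    · rw [h0]; simp only [Function.iterate_zero, id_eq]; linarith
    · obtain ⟨m, hm⟩ := Nat.exists_eq_succ_of_ne_zero h0.ne'
      have h1 : ¬ 1 ≤ |Φ^[m] x| := Nat.find_min hex (by omega)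
      push Not at h1
      rw [hm, Function.iterate_succ_apply', E.ab]
      have h2 := hB (Φ^[m] x) (by rw [mem_Icc]; exact abs_le.mp h1.le)
      rw [Real.norm_eq_abs] at h2
      linarith
  have h3 := hC (Φ^[Nat.find hex] x) (by rw [mem_Icc]; exact abs_le.mp hn2)
  rw [Real.norm_eq_abs] at h3
  have h4 := (hg (Nat.find hex)).1
  have h5 : γ ≤ C := by nlinarith
  rw [← hγx]
  nlinarith

lemma near (E : EX φ Φ) {x0 ρ δ : ℝ} (hx0 : x0 ≠ 0) (h : ρ * |x0| ≤ |φ x0|) (hδ : 0 < δ) :
    ∃ x, x ≠ 0 ∧ |x| ≤ δ ∧ ρ * |x| ≤ |φ x| := by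
  by_contra hcon
  push Not at hcon
  have hcφ := E.cφ
  have hx0δ : δ < |x0| := by
    by_contra h1
    push Not at h1
    exact absurd h (not_le.mpr (hcon x0 hx0 h1))
  set S : Set ℝ := Icc (-|x0|) |x0| ∩ ({x | δ ≤ |x|} ∩ {x | ρ * |x| ≤ |φ x|}) with hS
  have hSc : IsCompact S := by
    apply isCompact_Icc.inter_right
    apply IsClosed.inter
    · exact isClosed_le continuous_const continuous_abs
    · exact isClosed_le (by fun_prop) (by fun_prop)
  have hSn : S.Nonempty := ⟨x0, ⟨neg_abs_le x0, le_abs_self x0⟩, hx0δ.le, h⟩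
  obtain ⟨x, hxS, hxmin⟩ := hSc.exists_isMinOn hSn continuous_abs.continuousOn
  obtain ⟨hx1, hx2, hx3⟩ := hxS
  have hx2 : δ ≤ |x| := hx2
  have hx3 : ρ * |x| ≤ |φ x| := hx3
  obtain ⟨y, hy⟩ := E.sj x
  have hy0 : y ≠ 0 := by
    rintro rfl
    rw [E.Z] at hy
    rw [← hy, abs_zero] at hx2
    linarith
  have hyp : 0 < |y| := abs_pos.mpr hy0
  have hpy : 0 < |φ y| := abs_pos.mpr (E.ne y hy0)
  have hab := E.ab y
  rw [hy] at hab
  have hphi : |φ x| = |φ y| + |φ (φ y)| := by
    rw [← hy, ← E.cm, E.ab]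
  have key : ∀ y', y' ≠ 0 → |y'| < |x| → ¬ ρ * |y'| ≤ |φ y'| := by
    intro y' h0 h1 h2
    rcases le_or_gt |y'| δ with h3 | h3
    · exact absurd h2 (not_le.mpr (hcon y' h0 h3))
    · have h4 : y' ∈ S := by
        refine ⟨?_, h3.le, h2⟩
        have h5 : |x| ≤ |x0| := abs_le.mpr hx1
        exact abs_le.mp (h1.le.trans h5)
      have h6 := hxmin h4
      have h6 : |x| ≤ |y'| := h6
      linarith
  have k1 := key y hy0 (by linarith)
  have k2 := key (φ y) (E.ne y hy0) (by linarith)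
  push Not at k1 k2
  rw [hab, hphi] at hx3
  nlinarith

lemma exM (E : EX φ Φ) : ∃ M : ℝ, 0 < M ∧ (∀ x, |φ x| ≤ M * |x|) ∧
    ∀ M' < M, ∀ δ > 0, ∃ x, x ≠ 0 ∧ |x| ≤ δ ∧ M' * |x| ≤ |φ x| := by
  obtain ⟨B, hB0, hB⟩ := E.bdd
  set S : Set ℝ := {r | ∃ x, x ≠ 0 ∧ r = |φ x| / |x|} with hS
  have hSb : BddAbove S := by
    refine ⟨B, ?_⟩
    rintro _ ⟨x, hx, rfl⟩
    have hxp : 0 < |x| := abs_pos.mpr hx
    obtain ⟨y, hy0, hy1, hy2⟩ := E.near (x0 := x) (ρ := |φ x| / |x|) (δ := 1) hx
      (by rw [div_mul_cancel₀ _ hxp.ne']) one_pos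
    have h1 := hB y hy1
    have hyp : 0 < |y| := abs_pos.mpr hy0
    exact le_of_mul_le_mul_right (hy2.trans h1) hyp
  have hup : ∀ x, x ≠ 0 → |φ x| / |x| ≤ sSup S := fun x hx => le_csSup hSb ⟨x, hx, rfl⟩
  refine ⟨sSup S, ?_, ?_, ?_⟩
  · refine lt_of_lt_of_le ?_ (hup 1 one_ne_zero)
    exact div_pos (abs_pos.mpr (E.ne 1 one_ne_zero)) (abs_pos.mpr one_ne_zero)
  · intro x
    rcases eq_or_ne x 0 with rfl | hx
    · rw [E.z]; simp
    · have := hup x hx
      rwa [div_le_iff₀ (abs_pos.mpr hx)] at this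
  · intro M' hM' δ hδ
    obtain ⟨_, ⟨x, hx, rfl⟩, hx1⟩ := exists_lt_of_lt_csSup
      (⟨_, ⟨1, one_ne_zero, rfl⟩⟩ : S.Nonempty) hM'
    have hxp : 0 < |x| := abs_pos.mpr hx
    rw [lt_div_iff₀ hxp] at hx1
    exact E.near hx hx1.le hδ

lemma hle (E : EX φ Φ) {M : ℝ} (hM0 : 0 < M) (hM : ∀ x, |φ x| ≤ M * |x|) (h : ℝ → ℝ)
    (hp : ∀ x, 0 ≤ h x) (hadd : ∀ x, h (Φ x) = h x + h (φ x)) {C : ℝ} (hC : ∀ x, h x ≤ C * |x|)
    (x : ℝ) : h (φ x) ≤ M * h x := by
  have hlc := E.lc h hp hadd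
  rcases (hp x).eq_or_lt with h0 | h0
  · have h1 := hlc x
    rw [← h0] at h1 ⊢
    nlinarith [hp (φ x)]
  by_contra hcon
  push Not at hcon
  set ρ := h (φ x) / h x with hρ
  have hρM : M < ρ := by rw [hρ, lt_div_iff₀ h0]; exact hcon
  have hρ0 : 0 < ρ := hM0.trans hρM
  have hgr : ∀ n : ℕ, ρ ^ n * h x ≤ h (φ^[n] x) ∧ ρ * h (φ^[n] x) ≤ h (φ (φ^[n] x)) := by
    intro n
    induction n with
    | zero =>
      refine ⟨by simp, ?_⟩
      simp only [Function.iterate_zero, id_eq, hρ]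
      rw [div_mul_cancel₀ _ h0.ne']
    | succ n ih =>
      obtain ⟨h1, h2⟩ := ih
      rw [Function.iterate_succ_apply']
      set y := φ^[n] x with hy
      have hy0 : 0 < h y := lt_of_lt_of_le (by positivity) h1
      have h3 : 0 < h (φ y) := lt_of_lt_of_le (by positivity) h2
      refine ⟨?_, ?_⟩
      · rw [pow_succ]
        have := mul_le_mul_of_nonneg_left h1 hρ0.le
        nlinarith
      · have h4 := hlc y
        have h5 : ρ * h y * h (φ y) ≤ h (φ y) * h (φ y) := mul_le_mul_of_nonneg_right h2 h3.le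
        have h6 : (ρ * h (φ y)) * h y ≤ h (φ (φ y)) * h y := by nlinarith
        exact le_of_mul_le_mul_right h6 hy0
  have hphin : ∀ n : ℕ, |φ^[n] x| ≤ M ^ n * |x| := by
    intro n
    induction n with
    | zero => simp
    | succ n ih =>
      rw [Function.iterate_succ_apply', pow_succ]
      have h1 := hM (φ^[n] x)
      have h2 := mul_le_mul_of_nonneg_left ih hM0.le
      nlinarith
  have hC0 : 0 < C := by
    have h1 := hC x
    by_contra h2
    push Not at h2
    have : C * |x| ≤ 0 := mul_nonpos_of_nonpos_of_nonneg h2 (abs_nonneg x)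
    linarith
  have hfin : ∀ n : ℕ, (ρ / M) ^ n * h x ≤ C * |x| := by
    intro n
    have h1 := (hgr n).1
    have h2 := hC (φ^[n] x)
    have h3 := mul_le_mul_of_nonneg_left (hphin n) hC0.le
    have hMn : 0 < M ^ n := by positivity
    rw [div_pow, div_mul_eq_mul_div, div_le_iff₀ hMn]
    nlinarith
  have ht : Tendsto (fun n : ℕ => (ρ / M) ^ n * h x) atTop atTop :=
    (tendsto_pow_atTop_atTop_of_one_lt (by rwa [one_lt_div hM0])).atTop_mul_const h0
  obtain ⟨n, hn⟩ := (ht.eventually_gt_atTop (C * |x|)).exists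
  exact absurd (hfin n) (not_le.mpr hn)

lemma tower (E : EX φ Φ) {M : ℝ} (hM0 : 0 < M) (hM : ∀ x, |φ x| ≤ M * |x|) (k : ℕ) :
    ∃ H : ℝ → ℝ, (∀ x, 0 ≤ H x) ∧ (∀ x, H (Φ x) = H x + H (φ x)) ∧ (∀ x, H x ≤ M ^ k * |x|) ∧
      ∀ x x', Φ x = Φ x' → H x' - H x = (M + 1) ^ k * (|x'| - |x|) := by
  induction k with
  | zero =>
    refine ⟨fun x => |x|, fun x => abs_nonneg x, E.ab, fun x => by simp, fun x x' _ => by simp⟩
  | succ k ih =>
    obtain ⟨H, h1, h2, h3, h4⟩ := ih
    have h5 := E.hle hM0 hM H h1 h2 h3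
    refine ⟨fun x => M * H x - H (φ x), fun x => by have := h5 x; linarith, ?_, ?_, ?_⟩
    · intro x
      simp only
      rw [← E.cm, h2, h2]
      ring
    · intro x
      simp only
      have := h1 (φ x)
      have h6 := mul_le_mul_of_nonneg_left (h3 x) hM0.le
      rw [pow_succ]
      nlinarith
    · intro x x' hxx
      simp only
      have h6 : Φ (φ x) = Φ (φ x') := by rw [E.cm, E.cm, hxx]
      have h7 := h4 x x' hxx
      have h8 := h4 _ _ h6
      have h9 : |φ x'| - |φ x| = -(|x'| - |x|) := by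
        have a1 := E.ab x
        have a2 := E.ab x'
        rw [hxx] at a1
        linarith
      rw [h9] at h8
      have h10 : M * H x' - H (φ x') - (M * H x - H (φ x))
        = M * (H x' - H x) - (H (φ x') - H (φ x)) := by ring
      rw [h10, h7, h8, pow_succ]
      ring

lemma injabs (E : EX φ Φ) {x x' : ℝ} (h : Φ x = Φ x') : |x'| ≤ |x| := by
  obtain ⟨M, hM0, hM, -⟩ := E.exM
  by_contra hcon
  push Not at hcon
  have hfin : ∀ k : ℕ, ((M + 1) / M) ^ k * (|x'| - |x|) ≤ |x'| := by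
    intro k
    obtain ⟨H, h1, -, h3, h4⟩ := E.tower hM0 hM k
    have h5 := h4 x x' h
    have h6 := h1 x
    have h7 := h3 x'
    have hMn : 0 < M ^ k := by positivity
    rw [div_pow, div_mul_eq_mul_div, div_le_iff₀ hMn, ← h5]
    linarith
  have ht : Tendsto (fun k : ℕ => ((M + 1) / M) ^ k * (|x'| - |x|)) atTop atTop :=
    (tendsto_pow_atTop_atTop_of_one_lt (by rw [one_lt_div hM0]; linarith)).atTop_mul_const
      (by linarith)
  obtain ⟨n, hn⟩ := (ht.eventually_gt_atTop |x'|).exists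
  exact absurd (hfin n) (not_le.mpr hn)

end EX

lemma EX.refl {φ Φ : ℝ → ℝ} (E : EX φ Φ) : EX (fun x => -φ (-x)) (fun x => -Φ (-x)) where
  cφ := by have := E.cφ; fun_prop
  cΦ := by have := E.cΦ; fun_prop
  ab := by intro x; simp only [abs_neg]; rw [E.ab]; simp
  cm := by intro x; simp only [neg_neg]; rw [E.cm]
  ne := by intro x hx; exact neg_ne_zero.mpr (E.ne _ (neg_ne_zero.mpr hx))
  z := by simp [E.z]
  sj := by
    intro y
    obtain ⟨x, hx⟩ := E.sj (-y)
    exact ⟨-x, by simp [hx]⟩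

lemma EX.upper {φ Φ : ℝ → ℝ} (E : EX φ Φ) {M : ℝ} (hM0 : 0 < M) (hM : ∀ x, |φ x| ≤ M * |x|)
    (n : ℕ) (x : ℝ) : |Φ^[n] x| ≤ (1 + M) ^ n * |x| := by
  induction n with
  | zero => simp
  | succ n ih =>
    rw [Function.iterate_succ_apply', E.ab, pow_succ]
    have h1 := hM (Φ^[n] x)
    nlinarith

lemma EX.fin {φ Φ : ℝ → ℝ} (E : EX φ Φ) {M : ℝ} (hM0 : 0 < M) (hM : ∀ x, |φ x| ≤ M * |x|)
    (hinj : Function.Injective Φ) (hsg : ∀ x, x ≠ 0 → 0 < x * Φ (Φ x))
    (hnear : ∀ M' , 0 < M' → M' < M → ∀ δ > 0, ∃ x, 0 < x ∧ x ≤ δ ∧ M' * |x| ≤ |φ x|)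
    {z : ℝ} (hz : 0 < z) : |φ z| = M * |z| := by
  by_contra hcon
  have hlt : |φ z| < M * |z| := lt_of_le_of_ne (hM z) hcon
  have hzp : 0 < |z| := abs_pos.mpr hz.ne'
  obtain ⟨γ, hγ0, hγM, hγz⟩ : ∃ γ : ℝ, 0 ≤ γ ∧ γ < M ∧ |φ z| = γ * |z| := by
    refine ⟨|φ z| / |z|, by positivity, ?_, by field_simp⟩
    rwa [div_lt_iff₀ hzp]
  obtain ⟨M', hM1, hM2⟩ := exists_between hγM
  have hM'0 : 0 < M' := lt_of_le_of_lt hγ0 hM1
  have cΦ := E.cΦ
  set Ψ : ℝ → ℝ := Φ ∘ Φ with hΨ
  have hΨc : Continuous Ψ := cΦ.comp cΦ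
  have hΨi : Function.Injective Ψ := hinj.comp hinj
  have hΨ0 : Ψ 0 = 0 := by rw [hΨ]; simp [E.Z]
  have hΨm : StrictMono Ψ := by
    rcases hΨc.strictMono_of_inj hΨi with h | h
    · exact h
    · exfalso
      have h1 := h (one_pos (α := ℝ))
      have h2 := hsg 1 one_ne_zero
      rw [hΨ0] at h1
      simp only [hΨ, Function.comp] at h1
      linarith
  have hiter : ∀ (n : ℕ) (x : ℝ), Ψ^[n] x = Φ^[2 * n] x := by
    intro n x
    rw [Function.iterate_mul]
    rfl
  have hΨn0 : ∀ n : ℕ, Ψ^[n] 0 = 0 := by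
    intro n
    induction n with
    | zero => rfl
    | succ n ih => rw [Function.iterate_succ_apply', ih, hΨ0]
  set q := (1 + M') / (1 + γ) with hq
  have hg1 : 0 < 1 + γ := by linarith
  have hq1 : 1 < q := by rw [hq, one_lt_div hg1]; linarith
  obtain ⟨K, hK⟩ : ∃ K : ℕ, (1 + γ) ^ 2 ≤ q ^ K :=
    ((tendsto_pow_atTop_atTop_of_one_lt hq1).eventually_ge_atTop _).exists
  have hMK : 0 < (1 + M) ^ (2 * K) := by positivity
  obtain ⟨x, hx0, hx1, hx2⟩ := hnear M' hM'0 hM2 (z / (1 + M) ^ (2 * K)) (by positivity)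
  rw [le_div_iff₀ hMK] at hx1
  have hgx := E.grow hx0.ne' hM'0.le hx2
  have hpos : ∀ n : ℕ, 0 < Ψ^[n] x := by
    intro n
    have := (hΨm.iterate n) hx0
    rwa [hΨn0] at this
  have hlow : ∀ n : ℕ, (1 + M') ^ (2 * n) * x ≤ Ψ^[n] x := by
    intro n
    have h1 := (hgx (2 * n)).2.1
    rw [← hiter, abs_of_pos (hpos n), abs_of_pos hx0] at h1
    exact h1
  have hex : ∃ n, z < Ψ^[n] x := by
    have ht : Tendsto (fun n : ℕ => (1 + M') ^ (2 * n) * x) atTop atTop := by
      have : Tendsto (fun n : ℕ => ((1 + M') ^ 2) ^ n * x) atTop atTop :=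
        (tendsto_pow_atTop_atTop_of_one_lt (by nlinarith)).atTop_mul_const hx0
      simpa only [pow_mul] using this
    obtain ⟨n, hn⟩ := (ht.eventually_gt_atTop z).exists
    exact ⟨n, hn.trans_le (hlow n)⟩
  classical
  have hfind := Nat.find_spec hex
  have hNK : K < Nat.find hex := by
    by_contra h
    push Not at h
    have h1 : Ψ^[Nat.find hex] x ≤ z := by
      have h2 := E.upper hM0 hM (2 * Nat.find hex) x
      rw [← hiter, abs_of_pos (hpos _), abs_of_pos hx0] at h2
      have h3 : (1 + M) ^ (2 * Nat.find hex) ≤ (1 + M) ^ (2 * K) :=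
        pow_le_pow_right₀ (by linarith) (by omega)
      nlinarith
    linarith
  obtain ⟨m, hm⟩ := Nat.exists_eq_succ_of_ne_zero (show Nat.find hex ≠ 0 by omega)
  have hmK : K ≤ m := by omega
  have hmz : Ψ^[m] x ≤ z := by
    have := Nat.find_min hex (show m < Nat.find hex by omega)
    push Not at this
    exact this
  rw [hm] at hfind
  have hΨs : Function.Surjective Ψ := E.sj.comp E.sj
  obtain ⟨w, hw⟩ := (hΨs.iterate (m + 1)) z
  have hmono := hΨm.iterate (m + 1)
  have hwx : w < x := by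
    rw [← hmono.lt_iff_lt, hw]
    exact hfind
  have hw0 : 0 < w := by
    rw [← hmono.lt_iff_lt, hw, hΨn0]
    exact hz
  have hb := (E.back hγ0 (2 * (m + 1)) w (by
    rw [← hiter, hw]
    exact hγz.le)).1
  rw [← hiter, hw, abs_of_pos hz, abs_of_pos hw0] at hb
  have h1 := hlow m
  have h2 : (1 + γ) ^ (2 * (m + 1)) * w < (1 + γ) ^ (2 * (m + 1)) * x :=
    mul_lt_mul_of_pos_left hwx (by positivity)
  have h3 : (1 + M') ^ (2 * m) * x < (1 + γ) ^ (2 * (m + 1)) * x := by linarith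
  have h4 : (1 + M') ^ (2 * m) < (1 + γ) ^ (2 * (m + 1)) := lt_of_mul_lt_mul_right h3 hx0.le
  have h5 : (1 + γ) ^ 2 ≤ q ^ (2 * m) :=
    hK.trans (pow_le_pow_right₀ hq1.le (by omega))
  rw [hq, div_pow, le_div_iff₀ (by positivity)] at h5
  have h6 : (1 + γ) ^ (2 * (m + 1)) = (1 + γ) ^ 2 * (1 + γ) ^ (2 * m) := by
    rw [← pow_add]; congr 1; ring
  rw [h6] at h4
  linarith

theorem expand {ε : ℝ} (he : ε = 1 ∨ ε = -1) {φ : ℝ → ℝ} (hc : Continuous φ)
    (hcomm : ∀ x, ε * φ x + φ (φ x) = φ (ε * x + φ x))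
    (hs : ∀ x, x ≠ 0 → 0 < ε * x * φ x) (hodd : ε = 1 → ∀ x, φ (-x) = -φ x) :
    ∃ M : ℝ, 0 < M ∧ ∀ x, φ x = ε * M * x := by
  have hee : ε * ε = 1 := by rcases he with rfl | rfl <;> norm_num
  have he0 : ε ≠ 0 := by rcases he with rfl | rfl <;> norm_num
  have heabs : |ε| = 1 := by rcases he with rfl | rfl <;> norm_num
  set Φ : ℝ → ℝ := fun x => ε * x + φ x with hΦ
  have h0 : φ 0 = 0 := by
    have := hcomm 0
    simp only [mul_zero, zero_add] at this
    have h1 : ε * φ 0 = 0 := by linarith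
    rcases mul_eq_zero.mp h1 with h | h
    · exact absurd h he0
    · exact h
  have hab : ∀ x, |Φ x| = |x| + |φ x| := by
    intro x
    have h1 : |ε * x| = |x| := by rw [abs_mul, heabs, one_mul]
    rcases eq_or_ne x 0 with rfl | hx
    · simp [hΦ, h0]
    have h2 := hs x hx
    have h3 : |ε * x + φ x| = |ε * x| + |φ x| := by
      rw [abs_add_eq_add_abs_iff]
      rcases le_total 0 (ε * x) with h | h
      · left
        exact ⟨h, by by_contra h'; push Not at h'; nlinarith⟩
      · right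
        exact ⟨h, by by_contra h'; push Not at h'; nlinarith⟩
    rw [hΦ]
    simp only
    rw [h3, h1]
  have hΦc : Continuous Φ := by rw [hΦ]; fun_prop
  have hsj : Function.Surjective Φ := by
    rcases he with rfl | rfl
    · apply hΦc.surjective
      · refine tendsto_atTop_mono' _ ?_ tendsto_id
        filter_upwards [eventually_gt_atTop 0] with x hx
        have := hs x hx.ne'
        simp only [id, hΦ]
        nlinarith
      · refine tendsto_atBot_mono' _ ?_ tendsto_id
        filter_upwards [eventually_lt_atBot 0] with x hx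
        have := hs x hx.ne
        simp only [id, hΦ]
        nlinarith
    · apply hΦc.surjective'
      · refine tendsto_atTop_mono' _ ?_ tendsto_neg_atBot_atTop
        filter_upwards [eventually_lt_atBot 0] with x hx
        have := hs x hx.ne
        simp only [hΦ]
        nlinarith
      · refine tendsto_atBot_mono' _ ?_ tendsto_neg_atTop_atBot
        filter_upwards [eventually_gt_atTop 0] with x hx
        have := hs x hx.ne'
        simp only [hΦ]
        nlinarith
  have E : EX φ Φ := by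
    refine ⟨hc, hΦc, hab, fun x => ?_, ?_, h0, hsj⟩
    · simp only [hΦ]
      exact hcomm x
    · intro x hx h
      have := hs x hx
      rw [h, mul_zero] at this
      exact lt_irrefl _ this
  have hsΦ : ∀ x, x ≠ 0 → 0 < ε * x * Φ x := by
    intro x hx
    have h1 := hs x hx
    have h2 : 0 < x * x := mul_self_pos.mpr hx
    have h3 : ε * x * Φ x = ε * ε * (x * x) + ε * x * φ x := by simp only [hΦ]; ring
    rw [h3, hee]
    linarith
  have hinj : Function.Injective Φ := by
    intro x x' hxx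
    have h1 : |x| = |x'| := le_antisymm (E.injabs hxx.symm) (E.injabs hxx)
    rcases abs_eq_abs.mp h1 with h | h
    · exact h
    · rcases eq_or_ne x' 0 with h2 | h2
      · rw [h2] at h ⊢
        simpa using h
      · exfalso
        have h3 := hsΦ x' h2
        have h4 := hsΦ x (by rw [h]; exact neg_ne_zero.mpr h2)
        rw [hxx] at h4
        rw [h] at h4
        nlinarith
  have hsg : ∀ x, x ≠ 0 → 0 < x * Φ (Φ x) := by
    intro x hx
    have h1 := hsΦ x hx
    have h2 := hsΦ (Φ x) (E.NE hx)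
    have h3 : 0 < (ε * x * Φ x) * (ε * Φ x * Φ (Φ x)) := mul_pos h1 h2
    have h4 : (ε * x * Φ x) * (ε * Φ x * Φ (Φ x)) = (ε * ε) * (Φ x) ^ 2 * (x * Φ (Φ x)) := by ring
    rw [h4, hee, one_mul] at h3
    exact pos_of_mul_pos_right h3 (sq_nonneg _)
  obtain ⟨M, hM0, hM, hMn⟩ := E.exM
  have hnear : ∀ s : ℝ, (s = 1 ∨ s = -1) → ∀ M', 0 < M' → M' < M → ∀ δ > 0,
      ∃ x, 0 < s * x ∧ |x| ≤ δ ∧ M' * |x| ≤ |φ x| := by
    intro s hs1 M' hM'0 hM' δ hδ
    obtain ⟨x, hx0, hx1, hx2⟩ := hMn M' hM' (δ / (1 + M)) (by positivity)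
    have hx3 : |x| * (1 + M) ≤ δ := by rwa [le_div_iff₀ (by positivity)] at hx1
    have hs0 : s ≠ 0 := by rcases hs1 with rfl | rfl <;> norm_num
    rcases lt_or_gt_of_ne (mul_ne_zero hs0 hx0) with h | h
    · rcases he with h1 | h1
      · refine ⟨-x, by linarith, ?_, ?_⟩
        · rw [abs_neg]
          nlinarith [abs_nonneg x]
        · rw [abs_neg, hodd h1, abs_neg]
          exact hx2
      · refine ⟨Φ x, ?_, ?_, ?_⟩
        · have h2 := hsΦ x hx0
          rw [h1] at h2
          have hss : s * s = 1 := by rcases hs1 with rfl | rfl <;> norm_num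
          have h3 : 0 < (-(s * x)) * (s * Φ x) := by
            have : (-(s * x)) * (s * Φ x) = (s * s) * (-1 * x * Φ x) := by ring
            rw [this, hss, one_mul]
            exact h2
          exact pos_of_mul_pos_right h3 (by linarith)
        · rw [E.ab]
          have := hM x
          linarith
        · have := (E.grow hx0 hM'0.le hx2 1).1
          simpa using this
    · refine ⟨x, h, ?_, hx2⟩
      nlinarith [abs_nonneg x]
  have hfin : ∀ z, |φ z| = M * |z| := by
    intro z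
    rcases lt_trichotomy z 0 with h | h | h
    · have h1 := E.refl.fin hM0 (fun x => by simp only [abs_neg]; simpa using hM (-x))
        (fun x x' hxx => by
          simp only at hxx
          have := hinj (neg_injective hxx)
          exact neg_injective this)
        (fun x hx => by
          simp only [neg_neg]
          have := hsg (-x) (neg_ne_zero.mpr hx)
          linarith)
        (fun M' h0' h1' δ hδ => by
          obtain ⟨x, hx0, hx1, hx2⟩ := hnear (-1) (Or.inr rfl) M' h0' h1' δ hδ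
          refine ⟨-x, by linarith, (neg_le_abs x).trans hx1, ?_⟩
          simpa using hx2) (z := -z) (by linarith)
      simpa using h1
    · rw [h, h0]; simp
    · exact E.fin hM0 hM hinj hsg
        (fun M' h0' h1' δ hδ => by
          obtain ⟨x, hx0, hx1, hx2⟩ := hnear 1 (Or.inl rfl) M' h0' h1' δ hδ
          exact ⟨x, by linarith, (le_abs_self x).trans hx1, hx2⟩) h
  refine ⟨M, hM0, ?_⟩
  intro x
  rcases eq_or_ne x 0 with rfl | hx
  · rw [h0]; simp
  have h1 := hs x hx
  have h2 : |φ x| = |ε * M * x| := by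
    rw [hfin, abs_mul, abs_mul, heabs, one_mul, abs_of_pos hM0]
  rcases abs_eq_abs.mp h2 with h | h
  · exact h
  · exfalso
    rw [h] at h1
    have h3 : ε * x * (-(ε * M * x)) = -((ε * ε) * (M * (x * x))) := by ring
    rw [h3, hee] at h1
    have : 0 < M * (x * x) := mul_pos hM0 (mul_self_pos.mpr hx)
    linarith

/-! ### The contracting case -/

structure CT (f : ℝ → ℝ) : Prop where
  c : Continuous f
  eq : ∀ x, f (x + f x) = f x + f (f x)
  s : ∀ x, x ≠ 0 → x * f x < 0
  l : ∀ x, x ≠ 0 → |f x| < |x|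

namespace CT

variable {f : ℝ → ℝ}

lemma z (E : CT f) : f 0 = 0 := by
  have := E.eq 0
  simp only [zero_add] at this
  linarith

lemma refl (E : CT f) : CT (fun x => -f (-x)) where
  c := by have := E.c; fun_prop
  eq := by
    intro x
    have := E.eq (-x)
    simp only [neg_neg, neg_add_rev]
    rw [add_comm (f (-x)) (-x), this]
    ring
  s := by
    intro x hx
    have := E.s (-x) (neg_ne_zero.mpr hx)
    linarith
  l := by
    intro x hx
    have := E.l (-x) (neg_ne_zero.mpr hx)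
    simpa using this

lemma ne (E : CT f) {x : ℝ} (hx : x ≠ 0) : f x ≠ 0 := by
  intro h
  have := E.s x hx
  rw [h, mul_zero] at this
  exact lt_irrefl _ this

lemma ab (E : CT f) (x : ℝ) : |x| = |x + f x| + |f x| := by
  rcases lt_trichotomy x 0 with h | h | h
  · have h1 := E.s x h.ne
    have h2 := E.l x h.ne
    have h3 : 0 < f x := by nlinarith
    rw [abs_of_neg h, abs_of_pos h3] at h2 ⊢
    rw [abs_of_neg (by linarith)]
    ring
  · rw [h, E.z]; simp
  · have h1 := E.s x h.ne'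
    have h2 := E.l x h.ne'
    have h3 : f x < 0 := by nlinarith
    rw [abs_of_pos h, abs_of_neg h3] at h2 ⊢
    rw [abs_of_pos (by linarith)]
    ring

lemma NE (E : CT f) {x : ℝ} (hx : x ≠ 0) : x + f x ≠ 0 := by
  have h1 := E.ab x
  have h2 := E.l x hx
  intro h
  rw [h, abs_zero] at h1
  linarith

lemma lc (E : CT f) (x : ℝ) : |f x| ^ 2 ≤ |x| * |f (f x)| := by
  rcases eq_or_ne x 0 with rfl | hx
  · simp [E.z]
  · let Φ' : {x : ℝ // x ≠ 0} → {x : ℝ // x ≠ 0} := fun y => ⟨y.1 + f y.1, E.NE y.2⟩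
    let φ' : {x : ℝ // x ≠ 0} → {x : ℝ // x ≠ 0} := fun y => ⟨f y.1, E.ne y.2⟩
    have := lc2 Φ' φ' ?_ (fun y => |y.1|) ?_ ?_ ⟨x, hx⟩
    · exact this
    · intro y
      exact Subtype.ext (E.eq y.1).symm
    · intro y
      exact abs_pos.mpr y.2
    · intro y
      exact E.ab y.1

lemma gf (E : CT f) {x ρ : ℝ} (hx : x ≠ 0) (h : ρ * |x| ≤ |f x|) : ρ * |f x| ≤ |f (f x)| := by
  have h1 := E.lc x
  have hxp : 0 < |x| := abs_pos.mpr hx
  have h2 : ρ * |x| * |f x| ≤ |f x| * |f x| := mul_le_mul_of_nonneg_right h (abs_nonneg _)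
  have h3 : (ρ * |f x|) * |x| ≤ |f (f x)| * |x| := by nlinarith
  exact le_of_mul_le_mul_right h3 hxp

lemma gF (E : CT f) (x : ℝ) : |f (x + f x)| * |x| ≤ |f x| * |x + f x| := by
  have h1 := E.lc x
  have h2 := E.ab x
  have h3 := E.ab (f x)
  rw [← E.eq x] at h3
  have h4 : |f (x + f x)| = |f x| - |f (f x)| := by linarith
  have h5 : |x + f x| = |x| - |f x| := by linarith
  rw [h4, h5]
  nlinarith

lemma near (E : CT f) {x0 ρ δ : ℝ} (hx0 : x0 ≠ 0) (h : ρ * |x0| ≤ |f x0|) (hδ : 0 < δ) :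
    ∃ x, x ≠ 0 ∧ |x| ≤ δ ∧ ρ * |x| ≤ |f x| := by
  by_contra hcon
  push Not at hcon
  have hcφ := E.c
  have hx0δ : δ < |x0| := by
    by_contra h1
    push Not at h1
    exact absurd h (not_le.mpr (hcon x0 hx0 h1))
  set S : Set ℝ := Icc (-|x0|) |x0| ∩ ({x | δ ≤ |x|} ∩ {x | ρ * |x| ≤ |f x|}) with hS
  have hSc : IsCompact S := by
    apply isCompact_Icc.inter_right
    apply IsClosed.inter
    · exact isClosed_le continuous_const continuous_abs
    · exact isClosed_le (by fun_prop) (by fun_prop)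
  have hSn : S.Nonempty := ⟨x0, ⟨neg_abs_le x0, le_abs_self x0⟩, hx0δ.le, h⟩
  obtain ⟨x, hxS, hxmin⟩ := hSc.exists_isMinOn hSn continuous_abs.continuousOn
  obtain ⟨hx1, hx2, hx3⟩ := hxS
  have hx2 : δ ≤ |x| := hx2
  have hx3 : ρ * |x| ≤ |f x| := hx3
  have hxne : x ≠ 0 := by
    rintro rfl
    rw [abs_zero] at hx2
    linarith
  have h4 := E.gf hxne hx3
  have h5 := E.l x hxne
  rcases le_or_gt |f x| δ with h3 | h3
  · exact absurd h4 (not_le.mpr (hcon (f x) (E.ne hxne) h3))
  · have h6 : f x ∈ S := by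
      refine ⟨?_, h3.le, h4⟩
      have h7 : |x| ≤ |x0| := abs_le.mpr hx1
      exact abs_le.mp (h5.le.trans h7)
    have h8 : |x| ≤ |f x| := hxmin h6
    linarith

lemma exM (E : CT f) : ∃ M : ℝ, 0 < M ∧ M ≤ 1 ∧ (∀ x, |f x| ≤ M * |x|) ∧
    ∀ M' < M, ∀ δ > 0, ∃ x, x ≠ 0 ∧ |x| ≤ δ ∧ M' * |x| ≤ |f x| := by
  set S : Set ℝ := {r | ∃ x, x ≠ 0 ∧ r = |f x| / |x|} with hS
  have hSle : ∀ r ∈ S, r ≤ 1 := by
    rintro _ ⟨x, hx, rfl⟩
    have hxp : 0 < |x| := abs_pos.mpr hx
    rw [div_le_one hxp]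
    exact (E.l x hx).le
  have hSb : BddAbove S := ⟨1, hSle⟩
  have hSn : S.Nonempty := ⟨_, ⟨1, one_ne_zero, rfl⟩⟩
  have hup : ∀ x, x ≠ 0 → |f x| / |x| ≤ sSup S := fun x hx => le_csSup hSb ⟨x, hx, rfl⟩
  refine ⟨sSup S, ?_, csSup_le hSn hSle, ?_, ?_⟩
  · refine lt_of_lt_of_le ?_ (hup 1 one_ne_zero)
    exact div_pos (abs_pos.mpr (E.ne one_ne_zero)) (abs_pos.mpr one_ne_zero)
  · intro x
    rcases eq_or_ne x 0 with rfl | hx
    · rw [E.z]; simp
    · have := hup x hx
      rwa [div_le_iff₀ (abs_pos.mpr hx)] at this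
  · intro M' hM' δ hδ
    obtain ⟨_, ⟨x, hx, rfl⟩, hx1⟩ := exists_lt_of_lt_csSup hSn hM'
    have hxp : 0 < |x| := abs_pos.mpr hx
    rw [lt_div_iff₀ hxp] at hx1
    exact E.near hx hx1.le hδ

lemma back (E : CT f) {ρ : ℝ} (hρ : ρ ≤ 1) (n : ℕ) : ∀ w : ℝ, w ≠ 0 →
    ρ * |(fun x => x + f x)^[n] w| ≤ |f ((fun x => x + f x)^[n] w)| →
    |(fun x => x + f x)^[n] w| ≤ (1 - ρ) ^ n * |w| ∧ ρ * |w| ≤ |f w| := by
  induction n with
  | zero => intro w _ h; simpa using h
  | succ n ih =>
    intro w hw h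
    rw [Function.iterate_succ_apply] at h ⊢
    obtain ⟨h1, h2⟩ := ih (w + f w) (E.NE hw) h
    have h3 := E.gF w
    have hw0 : 0 < |w + f w| := abs_pos.mpr (E.NE hw)
    have h4 : ρ * |w| ≤ |f w| := by
      have h5 : ρ * |w + f w| * |w| ≤ |f (w + f w)| * |w| :=
        mul_le_mul_of_nonneg_right h2 (abs_nonneg _)
      have h6 : (ρ * |w|) * |w + f w| ≤ |f w| * |w + f w| := by nlinarith
      exact le_of_mul_le_mul_right h6 hw0
    refine ⟨h1.trans ?_, h4⟩
    rw [pow_succ]
    have h7 : |w + f w| ≤ (1 - ρ) * |w| := by have := E.ab w; linarith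
    have h8 : (0 : ℝ) ≤ (1 - ρ) ^ n := pow_nonneg (by linarith) _
    nlinarith [mul_le_mul_of_nonneg_left h7 h8]

lemma fin (E : CT f) {M : ℝ} (hM1 : M ≤ 1) (hM : ∀ x, |f x| ≤ M * |x|)
    (hnear : ∀ M' < M, ∀ δ > 0, ∃ x, 0 < x ∧ x ≤ δ ∧ M' * |x| ≤ |f x|)
    {z : ℝ} (hz : 0 < z) : |f z| = M * |z| := by
  by_contra hcon
  have hlt : |f z| < M * |z| := lt_of_le_of_ne (hM z) hcon
  have hzp : 0 < |z| := abs_pos.mpr hz.ne'
  obtain ⟨γ, hγ0, hγM, hγz⟩ : ∃ γ : ℝ, 0 ≤ γ ∧ γ < M ∧ |f z| = γ * |z| := by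
    refine ⟨|f z| / |z|, by positivity, ?_, by field_simp⟩
    rwa [div_lt_iff₀ hzp]
  obtain ⟨M', hM2, hM3⟩ := exists_between hγM
  set F : ℝ → ℝ := fun x => x + f x with hF
  have hFc : Continuous F := by have := E.c; rw [hF]; fun_prop
  have hFpos : ∀ x, 0 < x → 0 < F x := by
    intro x hx
    have h1 := E.l x hx.ne'
    have h2 := neg_abs_le (f x)
    rw [abs_of_pos hx] at h1
    simp only [hF]
    linarith
  have hFlt : ∀ x, 0 < x → F x < x := by
    intro x hx
    have h1 := E.s x hx.ne'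
    have h2 : f x < 0 := by nlinarith
    simp only [hF]
    linarith
  have hkpos : ∀ k : ℕ, 0 < F^[k] z := by
    intro k
    induction k with
    | zero => simpa using hz
    | succ k ih => rw [Function.iterate_succ_apply']; exact hFpos _ ih
  have hkγ : ∀ k : ℕ, |f (F^[k] z)| ≤ γ * |F^[k] z| := by
    intro k
    induction k with
    | zero => simpa using hγz.le
    | succ k ih =>
      rw [Function.iterate_succ_apply']
      set y := F^[k] z with hy
      have hy0 : 0 < |y| := abs_pos.mpr (hkpos k).ne'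
      have h1 := E.gF y
      have h2 : |f y| * |y + f y| ≤ γ * |y| * |y + f y| := mul_le_mul_of_nonneg_right ih (abs_nonneg _)
      have h3 : |f (F y)| * |y| ≤ (γ * |F y|) * |y| := by
        simp only [hF]
        nlinarith
      exact le_of_mul_le_mul_right h3 hy0
  have hklow : ∀ k : ℕ, (1 - γ) ^ k * z ≤ F^[k] z := by
    intro k
    induction k with
    | zero => simp
    | succ k ih =>
      rw [Function.iterate_succ_apply', pow_succ]
      have h1 := hkγ k
      have h2 := neg_abs_le (f (F^[k] z))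
      rw [abs_of_pos (hkpos k)] at h1
      simp only [hF] at *
      nlinarith
  have hanti : Antitone (fun k : ℕ => F^[k] z) := by
    apply antitone_nat_of_succ_le
    intro k
    rw [Function.iterate_succ_apply']
    exact (hFlt _ (hkpos k)).le
  have hlim : Tendsto (fun k : ℕ => F^[k] z) atTop (𝓝 0) := by
    have h1 := tendsto_atTop_ciInf hanti ⟨0, by rintro _ ⟨k, rfl⟩; exact (hkpos k).le⟩
    have h2 := isFixedPt_of_tendsto_iterate h1 hFc.continuousAt
    have h3 : (⨅ i, F^[i] z) = 0 := by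
      by_contra h4
      have h5 := E.ne h4
      have h6 : (⨅ i, F^[i] z) + f (⨅ i, F^[i] z) = ⨅ i, F^[i] z := h2
      exact h5 (by linarith)
    rwa [h3] at h1
  have hg1 : 0 < 1 - γ := by linarith
  have hg2 : 0 < 1 - M' := by linarith
  set p := (1 - γ) / (1 - M') with hp
  have hp1 : 1 < p := by rw [hp, one_lt_div hg2]; linarith
  obtain ⟨K, hK⟩ : ∃ K : ℕ, 1 / (1 - γ) ≤ p ^ K :=
    ((tendsto_pow_atTop_atTop_of_one_lt hp1).eventually_ge_atTop _).exists
  obtain ⟨x, hx0, hx1, hx2⟩ := hnear M' hM3 (F^[K] z) (hkpos K)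
  have hex : ∃ n, F^[n] z < x := (hlim.eventually_lt_const hx0).exists
  classical
  have hfind := Nat.find_spec hex
  have hNK : K < Nat.find hex := by
    by_contra h
    push Not at h
    have := hanti h
    simp only at this
    linarith
  obtain ⟨m, hm⟩ := Nat.exists_eq_succ_of_ne_zero (show Nat.find hex ≠ 0 by omega)
  have hmK : K ≤ m := by omega
  have hmz : x ≤ F^[m] z := by
    have := Nat.find_min hex (show m < Nat.find hex by omega)
    push Not at this
    exact this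
  rw [hm] at hfind
  have hivt : x ∈ F^[m] '' Icc (F z) z := by
    have hc' : ContinuousOn (F^[m]) (Icc (F z) z) := (hFc.iterate m).continuousOn
    apply intermediate_value_Icc (hFlt z hz).le hc'
    refine ⟨?_, hmz⟩
    rw [← Function.iterate_succ_apply]
    exact hfind.le
  obtain ⟨t, ⟨ht1, ht2⟩, ht3⟩ := hivt
  have ht0 : 0 < t := (hFpos z hz).trans_le ht1
  have hb := (E.back (ρ := M') (by linarith) m t ht0.ne' (by
    rw [← hF, ht3]
    exact hx2)).1
  rw [← hF, ht3, abs_of_pos hx0, abs_of_pos ht0] at hb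
  have h1 : (1 - M') ^ m * t ≤ (1 - M') ^ m * z := mul_le_mul_of_nonneg_left ht2 (by positivity)
  have h2 := hklow (m + 1)
  have h3 : (1 - γ) ^ (m + 1) * z < (1 - M') ^ m * z := by linarith
  have h4 : (1 - γ) ^ (m + 1) < (1 - M') ^ m := lt_of_mul_lt_mul_right h3 hz.le
  have h5 : 1 / (1 - γ) ≤ p ^ m := hK.trans (pow_le_pow_right₀ hp1.le hmK)
  rw [hp, div_pow, div_le_div_iff₀ hg1 (by positivity)] at h5
  rw [pow_succ] at h4
  linarith

end CT

theorem contract {f : ℝ → ℝ} (E : CT f) : ∃ a : ℝ, ∀ x, f x = a * x := by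
  obtain ⟨M, hM0, hM1, hM, hMn⟩ := E.exM
  have hnear : ∀ s : ℝ, (s = 1 ∨ s = -1) → ∀ M' < M, ∀ δ > 0,
      ∃ x, 0 < s * x ∧ |x| ≤ δ ∧ M' * |x| ≤ |f x| := by
    intro s hs1 M' hM' δ hδ
    obtain ⟨x, hx0, hx1, hx2⟩ := hMn M' hM' δ hδ
    have hs0 : s ≠ 0 := by rcases hs1 with rfl | rfl <;> norm_num
    rcases lt_or_gt_of_ne (mul_ne_zero hs0 hx0) with h | h
    · refine ⟨f x, ?_, (E.l x hx0).le.trans hx1, E.gf hx0 hx2⟩
      have h2 := E.s x hx0
      have hss : s * s = 1 := by rcases hs1 with rfl | rfl <;> norm_num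
      have h3 : 0 < (-(s * x)) * (s * f x) := by
        have : (-(s * x)) * (s * f x) = -((s * s) * (x * f x)) := by ring
        rw [this, hss, one_mul]
        linarith
      exact pos_of_mul_pos_right h3 (by linarith)
    · exact ⟨x, h, hx1, hx2⟩
  have hfin : ∀ z, |f z| = M * |z| := by
    intro z
    rcases lt_trichotomy z 0 with h | h | h
    · have h1 := E.refl.fin hM1 (fun x => by simpa using hM (-x))
        (fun M' h1' δ hδ => by
          obtain ⟨x, hx0, hx1, hx2⟩ := hnear (-1) (Or.inr rfl) M' h1' δ hδ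
          refine ⟨-x, by linarith, (neg_le_abs x).trans hx1, ?_⟩
          simpa using hx2) (z := -z) (by linarith)
      simpa using h1
    · rw [h, E.z]; simp
    · exact E.fin hM1 hM
        (fun M' h1' δ hδ => by
          obtain ⟨x, hx0, hx1, hx2⟩ := hnear 1 (Or.inl rfl) M' h1' δ hδ
          exact ⟨x, by linarith, (le_abs_self x).trans hx1, hx2⟩) h
  refine ⟨-M, ?_⟩
  intro x
  rcases eq_or_ne x 0 with rfl | hx
  · rw [E.z]; simp
  have h1 := E.s x hx
  have h2 : |f x| = |(-M) * x| := by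
    rw [hfin, abs_mul, abs_neg, abs_of_pos hM0]
  rcases abs_eq_abs.mp h2 with h | h
  · exact h
  · exfalso
    rw [h] at h1
    have h3 : x * (-(-M * x)) = M * (x * x) := by ring
    rw [h3] at h1
    have : 0 < M * (x * x) := mul_pos hM0 (mul_self_pos.mpr hx)
    linarith

/-! ### General solutions: basic facts -/

structure SOL (f : ℝ → ℝ) : Prop where
  c : Continuous f
  eq : ∀ x, f (x + f x) = f x + f (f x)

/-- the map `x ↦ x + f x` -/
def stp (f : ℝ → ℝ) (x : ℝ) : ℝ := x + f x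

namespace SOL

variable {f : ℝ → ℝ}

lemma z (E : SOL f) : f 0 = 0 := by
  have := E.eq 0
  simp only [zero_add] at this
  linarith

lemma refl (E : SOL f) : SOL (fun x => -f (-x)) where
  c := by have := E.c; fun_prop
  eq := by
    intro x
    have := E.eq (-x)
    simp only [neg_neg, neg_add_rev]
    rw [add_comm (f (-x)) (-x), this]
    ring

lemma cstp (E : SOL f) : Continuous (stp f) := by
  have := E.c
  unfold stp
  fun_prop

lemma comm (E : SOL f) (n : ℕ) (x : ℝ) : f ((stp f)^[n] x) = (stp f)^[n] (f x) := by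
  induction n with
  | zero => rfl
  | succ n ih =>
    rw [Function.iterate_succ_apply', Function.iterate_succ_apply', ← ih]
    simp only [stp]
    exact E.eq _

lemma diff (E : SOL f) {x y : ℝ} (h : f x = f y) (n : ℕ) :
    (stp f)^[n] x - x = (stp f)^[n] y - y := by
  induction n with
  | zero => simp
  | succ n ih =>
    rw [Function.iterate_succ_apply', Function.iterate_succ_apply']
    have h1 := E.comm n x
    have h2 := E.comm n y
    rw [h] at h1
    simp only [stp] at *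
    linarith

lemma trans (E : SOL f) {x y : ℝ} (hx : f x = y) (hy : f y = 0) (k : ℕ) : f (x + k * y) = y := by
  induction k with
  | zero => simpa using hx
  | succ k ih =>
    have h1 := E.eq (x + k * y)
    rw [ih, hy] at h1
    push_cast
    have h2 : x + (k + 1) * y = x + k * y + y := by ring
    rw [h2, h1, add_zero]

lemma zeroOn (E : SOL f) {q : ℝ} (hq : 0 ≤ q) (h : ∀ x, 0 ≤ x → x ≤ q → 0 ≤ f x)
    (hfq : f q = 0) : ∀ x, 0 ≤ x → x ≤ q → f x = 0 := by
  have hmap : ∀ t, 0 ≤ t → t ≤ q → stp f t ≤ q := by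
    intro t ht0 ht1
    by_contra hcon
    push Not at hcon
    have hivt : q ∈ stp f '' Icc 0 t := by
      apply intermediate_value_Icc ht0 E.cstp.continuousOn
      refine ⟨?_, hcon.le⟩
      simp only [stp, E.z, add_zero]
      exact hq
    obtain ⟨s, ⟨hs0, hs1⟩, hs2⟩ := hivt
    have h1 := E.eq s
    simp only [stp] at hs2
    have h2 := h s hs0 (by linarith)
    have h3 := h (f s) h2 (by linarith)
    rw [hs2, hfq] at h1
    have h4 : f s = 0 := by linarith
    have h5 : t = q := by linarith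
    rw [h5] at hcon
    simp only [stp] at hcon
    linarith
  intro x hx0 hxq
  have hfx0 := h x hx0 hxq
  have hfxq : f x ≤ q := by
    have := hmap x hx0 hxq
    simp only [stp] at this
    linarith
  have horb : ∀ v, 0 ≤ v → v ≤ q → ∀ k : ℕ, v ≤ (stp f)^[k] v ∧ (stp f)^[k] v ≤ q := by
    intro v hv0 hvq k
    induction k with
    | zero => exact ⟨le_refl _, hvq⟩
    | succ k ih =>
      rw [Function.iterate_succ_apply']
      have h1 := h _ (hv0.trans ih.1) ih.2
      refine ⟨?_, hmap _ (hv0.trans ih.1) ih.2⟩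
      simp only [stp] at h1 ⊢
      linarith [ih.1]
  have hmono : Monotone (fun k : ℕ => (stp f)^[k] x) := by
    apply monotone_nat_of_le_succ
    intro k
    rw [Function.iterate_succ_apply']
    have h1 := horb x hx0 hxq k
    have h2 := h _ (hx0.trans h1.1) h1.2
    simp only [stp] at h2 ⊢
    linarith
  have h1 := tendsto_atTop_ciSup hmono ⟨q, by rintro _ ⟨k, rfl⟩; exact (horb x hx0 hxq k).2⟩
  set L := ⨆ i, (stp f)^[i] x with hL
  have h2 : stp f L = L := isFixedPt_of_tendsto_iterate h1 E.cstp.continuousAt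
  have h3 : f L = 0 := by simp only [stp] at h2; linarith
  have h4 : Tendsto (fun k : ℕ => f ((stp f)^[k] x)) atTop (𝓝 (f L)) :=
    (E.c.tendsto L).comp h1
  have h5 : f x ≤ f L := by
    apply ge_of_tendsto' h4
    intro k
    rw [E.comm]
    exact (horb (f x) hfx0 hfxq k).1
  linarith

lemma allZero (E : SOL f) (h : ∀ x, 0 ≤ x → 0 ≤ f x) {z : ℝ} (hz : 0 < z) (hfz : f z = 0) :
    ∀ x, 0 ≤ x → f x = 0 := by
  by_contra hcon
  push Not at hcon
  obtain ⟨w, hw0, hw⟩ := hcon
  have hwpos : 0 < f w := lt_of_le_of_ne (h w hw0) (Ne.symm hw)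
  have hzw : z < w := by
    by_contra h1
    push Not at h1
    exact hw (E.zeroOn hz.le (fun x hx _ => h x hx) hfz w hw0 h1)
  set S : Set ℝ := Icc z w ∩ {x | f x = 0} with hS
  have hSc : IsCompact S := isCompact_Icc.inter_right (isClosed_eq E.c continuous_const)
  have hSn : S.Nonempty := ⟨z, ⟨le_refl _, hzw.le⟩, hfz⟩
  obtain ⟨c, hcS, hcmax⟩ := hSc.exists_isMaxOn hSn continuous_id.continuousOn
  obtain ⟨⟨hc1, hc2⟩, hc3⟩ := hcS
  have hc3 : f c = 0 := hc3
  have hc0 : 0 < c := hz.trans_le hc1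
  have hz0 : ∀ x, 0 ≤ x → x ≤ c → f x = 0 := E.zeroOn hc0.le (fun x hx _ => h x hx) hc3
  have hgt : ∀ t, c < t → 0 < f t := by
    intro t ht
    refine lt_of_le_of_ne (h t (by linarith)) ?_
    intro h1
    rcases le_or_gt t w with h2 | h2
    · have h3 : t ∈ S := ⟨⟨by linarith, h2⟩, h1.symm⟩
      have h4 : t ≤ c := hcmax h3
      linarith
    · exact hw (E.zeroOn (by linarith) (fun x hx _ => h x hx) h1.symm w hw0 h2.le)
  have hp2 := hgt (c + 2) (by linarith)
  have hp1 := hgt (c + 1) (by linarith)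
  -- continuity at `c+2`
  obtain ⟨η, hη0, hη⟩ := Metric.continuousAt_iff.mp (E.c.continuousAt (x := c + 2))
    (f (c + 2) / 2) (by linarith)
  set y := min (min c (f (c + 1))) (min (η / 2) (f (c + 2) / 2)) with hy
  have hy0 : 0 < y := by rw [hy]; positivity
  have hy1 : y ≤ c := (min_le_left _ _).trans (min_le_left _ _)
  have hy2 : y ≤ f (c + 1) := (min_le_left _ _).trans (min_le_right _ _)
  have hy3 : y ≤ η / 2 := (min_le_right _ _).trans (min_le_left _ _)
  have hy4 : y ≤ f (c + 2) / 2 := (min_le_right _ _).trans (min_le_right _ _)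
  have hivt : y ∈ f '' Icc c (c + 1) := by
    apply intermediate_value_Icc (by linarith) E.c.continuousOn
    rw [hc3]
    exact ⟨hy0.le, hy2⟩
  obtain ⟨x, ⟨hx0, hx1⟩, hx2⟩ := hivt
  have htr := E.trans hx2 (hz0 y hy0.le hy1)
  set k := ⌈(c + 2 - x) / y⌉₊ with hk
  have hk1 : (c + 2 - x) / y ≤ k := Nat.le_ceil _
  have hk2 : (k : ℝ) < (c + 2 - x) / y + 1 := Nat.ceil_lt_add_one (by
    apply div_nonneg _ hy0.le
    linarith)
  rw [div_le_iff₀ hy0] at hk1
  have hk3 : (k : ℝ) * y < (c + 2 - x) + y := by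
    have h1 := mul_lt_mul_of_pos_right hk2 hy0
    rw [add_mul, div_mul_cancel₀ _ hy0.ne', one_mul] at h1
    exact h1
  have h1 := htr k
  have h2 := @hη (x + k * y) (by
    rw [Real.dist_eq, abs_lt]
    constructor <;> linarith)
  rw [h1, Real.dist_eq, abs_lt] at h2
  linarith [h2.1]

lemma partA (E : SOL f) (h : ∀ x, 0 ≤ x → 0 ≤ f x) :
    ∃ a : ℝ, 0 ≤ a ∧ ∀ x, 0 ≤ x → f x = a * x := by
  by_cases hz : ∃ z, 0 < z ∧ f z = 0
  · obtain ⟨z, hz0, hz1⟩ := hz
    exact ⟨0, le_refl _, fun x hx => by rw [E.allZero h hz0 hz1 x hx, zero_mul]⟩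
  push Not at hz
  have hpos : ∀ x, 0 < x → 0 < f x := fun x hx => lt_of_le_of_ne (h x hx.le) (Ne.symm (hz x hx))
  set φ : ℝ → ℝ := fun x => f (max x 0) - f (max (-x) 0) with hφ
  have hφ1 : ∀ x, 0 ≤ x → φ x = f x := by
    intro x hx
    simp only [hφ]
    rw [max_eq_left hx, max_eq_right (by linarith), E.z, sub_zero]
  have hodd : ∀ x, φ (-x) = -φ x := by
    intro x
    simp only [hφ, neg_neg]
    ring
  have hc : Continuous φ := by
    have := E.c
    rw [hφ]
    fun_prop
  have hcomm0 : ∀ x, 0 ≤ x → 1 * φ x + φ (φ x) = φ (1 * x + φ x) := by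
    intro x hx
    rw [one_mul, one_mul, hφ1 x hx, hφ1 (f x) (h x hx), hφ1 (x + f x) (add_nonneg hx (h x hx))]
    exact (E.eq x).symm
  obtain ⟨M, hM0, hM⟩ := expand (ε := 1) (Or.inl rfl) hc (by
    intro x
    rcases le_total 0 x with hx | hx
    · exact hcomm0 x hx
    · have h1 := hcomm0 (-x) (by linarith)
      rw [hodd, one_mul, one_mul, hodd] at h1
      rw [one_mul, one_mul]
      have h2 : -x + -φ x = -(x + φ x) := by ring
      rw [h2, hodd] at h1
      linarith) (by
    intro x hx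
    rw [one_mul]
    rcases lt_or_gt_of_ne hx with h1 | h1
    · have h2 := hpos (-x) (by linarith)
      have h3 : φ x = -f (-x) := by
        have := hodd x
        rw [hφ1 (-x) (by linarith)] at this
        linarith
      rw [h3]
      nlinarith
    · rw [hφ1 x h1.le]
      exact mul_pos h1 (hpos x h1)) (fun _ => hodd)
  refine ⟨M, hM0.le, ?_⟩
  intro x hx
  rw [← hφ1 x hx, hM, one_mul]

lemma case1 (E : SOL f) (h : ∀ x, 0 ≤ x → 0 ≤ f x) :
    ∃ a b : ℝ, 0 ≤ a ∧ 0 ≤ b ∧ ∀ x, f x = if 0 ≤ x then a * x else b * x := by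
  obtain ⟨a, ha0, ha⟩ := E.partA h
  have hneg : ∀ x, x < 0 → f x ≤ 0 := by
    intro x hx
    by_contra hcon
    push Not at hcon
    have hind : ∀ k : ℕ, ∃ u, x + k * f x ≤ u ∧ u < 0 ∧ f x ≤ f u := by
      intro k
      induction k with
      | zero => exact ⟨x, by simp, hx, le_refl _⟩
      | succ k ih =>
        obtain ⟨u, h1, h2, h3⟩ := ih
        have h4 := E.eq u
        rw [ha (f u) (by linarith)] at h4
        refine ⟨u + f u, ?_, ?_, ?_⟩
        · push_cast
          linarith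
        · by_contra h5
          push Not at h5
          rw [ha _ h5] at h4
          nlinarith
        · rw [h4]
          have : 0 ≤ a * f u := mul_nonneg ha0 (by linarith)
          linarith
    obtain ⟨k, hk⟩ := exists_nat_gt (-x / f x)
    obtain ⟨u, h1, h2, -⟩ := hind k
    rw [div_lt_iff₀ hcon] at hk
    linarith
  obtain ⟨b, hb0, hb⟩ := E.refl.partA (fun x hx => by
    rcases hx.eq_or_lt with h1 | h1
    · rw [← h1, neg_zero, E.z, neg_zero]
    · have := hneg (-x) (by linarith)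
      linarith)
  refine ⟨a, b, ha0, hb0, ?_⟩
  intro x
  split_ifs with hx
  · exact ha x hx
  · push Not at hx
    have h1 := hb (-x) (by linarith)
    rw [neg_neg] at h1
    linarith

end SOL

namespace SOL

variable {f : ℝ → ℝ}

lemma zOne (E : SOL f) {δ x1 : ℝ} (hδ : 0 < δ) (h : ∀ x, 0 ≤ x → x ≤ δ → 0 ≤ f x)
    (hx1 : 0 < x1) (hf : f x1 < 0) : ∃ c, 0 < c ∧ ∀ x, 0 ≤ x → x ≤ c → f x = 0 := by
  have hδx : δ < x1 := by
    by_contra h1
    push Not at h1
    have := h x1 hx1.le h1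
    linarith
  set S : Set ℝ := Icc δ x1 ∩ {x | f x ≤ 0} with hS
  have hSc : IsCompact S := isCompact_Icc.inter_right (isClosed_le E.c continuous_const)
  have hSn : S.Nonempty := ⟨x1, ⟨hδx.le, le_refl _⟩, hf.le⟩
  obtain ⟨c, hcS, hcmin⟩ := hSc.exists_isMinOn hSn continuous_id.continuousOn
  obtain ⟨⟨hc1, hc2⟩, hc3⟩ := hcS
  have hc3 : f c ≤ 0 := hc3
  have hc0 : 0 < c := hδ.trans_le hc1
  have hlt : ∀ t, 0 ≤ t → t < c → 0 ≤ f t := by
    intro t ht0 ht1
    rcases le_or_gt t δ with h1 | h1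
    · exact h t ht0 h1
    · by_contra h2
      push Not at h2
      have h3 : t ∈ S := ⟨⟨h1.le, by linarith⟩, h2.le⟩
      have h4 : c ≤ t := hcmin h3
      linarith
  have hfc : f c = 0 := by
    by_contra h1
    have h2 : f c < 0 := lt_of_le_of_ne hc3 h1
    have hivt : (0 : ℝ) ∈ f '' Icc δ c := by
      apply intermediate_value_Icc' hc1 E.c.continuousOn
      exact ⟨h2.le, h δ hδ.le (le_refl _)⟩
    obtain ⟨t, ⟨ht0, ht1⟩, ht2⟩ := hivt
    have h3 : t ∈ S := ⟨⟨ht0, by linarith⟩, ht2.le⟩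
    have h4 : c ≤ t := hcmin h3
    have h5 : t = c := le_antisymm ht1 h4
    rw [h5] at ht2
    exact h1 ht2
  refine ⟨c, hc0, E.zeroOn hc0.le ?_ hfc⟩
  intro x hx0 hx1
  rcases hx1.eq_or_lt with h1 | h1
  · rw [h1, hfc]
  · exact hlt x hx0 h1

lemma nOne (E : SOL f) {c x1 x2 : ℝ} (hc : 0 < c) (h0 : ∀ x, 0 ≤ x → x ≤ c → f x = 0)
    (hx1 : 0 < x1) (hf1 : f x1 < 0) (hx2 : x2 < 0) (hf2 : 0 < f x2) : False := by
  -- `f ≤ 0` just left of `0`
  obtain ⟨δ, hδ0, hδ⟩ : ∃ δ, 0 < δ ∧ ∀ v, -δ ≤ v → v ≤ 0 → f v ≤ 0 := by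
    obtain ⟨η, hη0, hη⟩ := Metric.continuousAt_iff.mp (E.c.continuousAt (x := 0)) c hc
    refine ⟨η / 2, by linarith, ?_⟩
    intro v hv0 hv1
    by_contra hcon
    push Not at hcon
    have h1 := @hη v (by rw [Real.dist_eq, abs_lt]; constructor <;> linarith)
    rw [E.z, Real.dist_eq, abs_lt] at h1
    have h2 : f (f v) = 0 := h0 _ hcon.le (by linarith [h1.2])
    have h3 := E.trans (y := f v) rfl h2
    set k := ⌈(-v) / f v⌉₊ with hk
    have hk1 : (-v) / f v ≤ k := Nat.le_ceil _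
    have hk2 : (k : ℝ) < (-v) / f v + 1 := Nat.ceil_lt_add_one (by
      apply div_nonneg _ hcon.le
      linarith)
    rw [div_le_iff₀ hcon] at hk1
    have hk3 : (k : ℝ) * f v < -v + f v := by
      have h1 := mul_lt_mul_of_pos_right hk2 hcon
      rw [add_mul, div_mul_cancel₀ _ hcon.ne', one_mul] at h1
      exact h1
    have h4 := h3 k
    rw [h0 _ (by linarith) (by linarith [h1.2])] at h4
    linarith
  obtain ⟨c', hc'0, hc'⟩ := E.refl.zOne hδ0 (fun x hx0 hx1 => by
      have := hδ (-x) (by linarith) (by linarith)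
      linarith) (x1 := -x2) (by linarith) (by simpa using hf2)
  set y := min (min c c') (-f x1) with hy
  have hy0 : 0 < y := by
    rw [hy]
    have : 0 < -f x1 := by linarith
    positivity
  have hy1 : y ≤ c := (min_le_left _ _).trans (min_le_left _ _)
  have hy2 : y ≤ c' := (min_le_left _ _).trans (min_le_right _ _)
  have hy3 : y ≤ -f x1 := min_le_right _ _
  have hivt : -y ∈ f '' Icc 0 x1 := by
    apply intermediate_value_Icc' hx1.le E.c.continuousOn
    rw [E.z]
    exact ⟨by linarith, by linarith⟩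
  obtain ⟨x, ⟨hx0, hx1⟩, hx2⟩ := hivt
  have hfy : f (-y) = 0 := by
    have := hc' y hy0.le hy2
    linarith
  have htr := E.trans hx2 hfy
  set k := ⌊x / y⌋₊ with hk
  have hk1 : (k : ℝ) ≤ x / y := Nat.floor_le (by positivity)
  have hk2 : x / y < k + 1 := Nat.lt_floor_add_one _
  rw [le_div_iff₀ hy0] at hk1
  rw [div_lt_iff₀ hy0] at hk2
  have h1 := htr k
  have h2 : x + k * -y = x - k * y := by ring
  rw [h2, h0 _ (by linarith) (by linarith)] at h1
  linarith

lemma nTwo (E : SOL f) (hneg : ∀ δ, 0 < δ → ∃ x, 0 < x ∧ x ≤ δ ∧ f x < 0)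
    (hpos : ∀ δ, 0 < δ → ∃ x, -δ ≤ x ∧ x < 0 ∧ 0 < f x) : ∀ z, 0 < z → f z < 0 := by
  intro z hz
  by_contra hcon
  push Not at hcon
  obtain ⟨t0, ht00, ht01, ht02⟩ := hneg z hz
  -- left end
  obtain ⟨c, hc0, hct, hcneg⟩ : ∃ c, 0 ≤ c ∧ c < t0 ∧ ∀ t, c < t → t ≤ t0 → f t < 0 := by
    set S : Set ℝ := Icc 0 t0 ∩ {x | 0 ≤ f x} with hS
    have hSc : IsCompact S := isCompact_Icc.inter_right (isClosed_le continuous_const E.c)
    have hSn : S.Nonempty := ⟨0, ⟨le_refl _, ht00.le⟩, by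
      show 0 ≤ f 0
      rw [E.z]⟩
    obtain ⟨c, hcS, hcmax⟩ := hSc.exists_isMaxOn hSn continuous_id.continuousOn
    obtain ⟨⟨hc1, hc2⟩, hc3⟩ := hcS
    have hc3 : 0 ≤ f c := hc3
    refine ⟨c, hc1, lt_of_le_of_ne hc2 ?_, ?_⟩
    · intro h
      rw [h] at hc3
      linarith
    · intro t h1 h2
      by_contra h3
      push Not at h3
      have h4 : t ∈ S := ⟨⟨by linarith, h2⟩, h3⟩
      have h5 : t ≤ c := hcmax h4
      linarith
  -- right end
  obtain ⟨d, hd0, hfd, hdneg⟩ : ∃ d, t0 < d ∧ f d = 0 ∧ ∀ t, t0 ≤ t → t < d → f t < 0 := by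
    set S : Set ℝ := Icc t0 z ∩ {x | 0 ≤ f x} with hS
    have hSc : IsCompact S := isCompact_Icc.inter_right (isClosed_le continuous_const E.c)
    have hSn : S.Nonempty := ⟨z, ⟨ht01, le_refl _⟩, hcon⟩
    obtain ⟨d, hdS, hdmin⟩ := hSc.exists_isMinOn hSn continuous_id.continuousOn
    obtain ⟨⟨hd1, hd2⟩, hd3⟩ := hdS
    have hd3 : 0 ≤ f d := hd3
    have hlt : t0 < d := lt_of_le_of_ne hd1 (by
      intro h
      rw [← h] at hd3
      linarith)
    refine ⟨d, hlt, ?_, ?_⟩
    · have hivt : (0 : ℝ) ∈ f '' Icc t0 d := by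
        apply intermediate_value_Icc hd1 E.c.continuousOn
        exact ⟨ht02.le, hd3⟩
      obtain ⟨t, ⟨ht0, ht1⟩, ht2⟩ := hivt
      have h3 : t ∈ S := ⟨⟨ht0, by linarith⟩, ht2.ge⟩
      have h4 : d ≤ t := hdmin h3
      have h5 : t = d := le_antisymm ht1 h4
      rw [h5] at ht2
      exact ht2
    · intro t h1 h2
      by_contra h3
      push Not at h3
      have h4 : t ∈ S := ⟨⟨h1, by linarith⟩, h3⟩
      have h5 : d ≤ t := hdmin h4
      linarith
  have hcd : ∀ t, c < t → t < d → f t < 0 := by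
    intro t h1 h2
    rcases le_total t t0 with h | h
    · exact hcneg t h1 h
    · exact hdneg t h h2
  obtain ⟨s, hs0, hs1, hs2⟩ := hpos ((d - c) / 2) (by linarith)
  have hds := hcd (d + s) (by linarith) (by linarith)
  obtain ⟨η1, hη10, hη1⟩ := Metric.continuousAt_iff.mp (E.c.continuousAt (x := s)) (f s) hs2
  obtain ⟨η2, hη20, hη2⟩ := Metric.continuousAt_iff.mp (E.c.continuousAt (x := d + s))
    (-f (d + s)) (by linarith)
  obtain ⟨u, hu0, hu1, hu2⟩ := hneg (η1 / 2) (by linarith)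
  obtain ⟨η3, hη30, hη3⟩ := Metric.continuousAt_iff.mp (E.c.continuousAt (x := d))
    (-f u) (by linarith)
  -- starting point
  obtain ⟨t1, ht1d, ht1s, ht1a, ht1b⟩ : ∃ t1, t1 < d ∧ c - s < t1 ∧ d - η2 < t1 ∧ d - η3 < t1 := by
    obtain ⟨t1, h1, h2⟩ := exists_between (show max (c - s) (max (d - η2) (d - η3)) < d by
      rw [max_lt_iff, max_lt_iff]
      refine ⟨by linarith, by linarith, by linarith⟩)
    rw [max_lt_iff, max_lt_iff] at h1
    exact ⟨t1, h2, h1.1, h1.2.1, h1.2.2⟩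
  obtain ⟨k, hk⟩ : ∃ k : ℕ, (stp f)^[k] t1 < t1 + s := by
    by_contra h1
    push Not at h1
    have hle : ∀ k : ℕ, (stp f)^[k] t1 ≤ t1 := by
      intro k
      induction k with
      | zero => exact le_refl _
      | succ k ih =>
        rw [Function.iterate_succ_apply']
        have h2 := hcd _ (by linarith [h1 k]) (ih.trans_lt ht1d)
        simp only [stp] at h2 ih ⊢
        linarith
    have hanti : Antitone (fun k : ℕ => (stp f)^[k] t1) := by
      apply antitone_nat_of_succ_le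
      intro k
      rw [Function.iterate_succ_apply']
      have h2 := hcd _ (by linarith [h1 k]) ((hle k).trans_lt ht1d)
      simp only [stp] at h2 ⊢
      linarith
    have h2 := tendsto_atTop_ciInf hanti ⟨t1 + s, by rintro _ ⟨k, rfl⟩; exact h1 k⟩
    set L := ⨅ i, (stp f)^[i] t1 with hL
    have h3 : stp f L = L := isFixedPt_of_tendsto_iterate h2 E.cstp.continuousAt
    have h4 : f L = 0 := by simp only [stp] at h3; linarith
    have h5 : t1 + s ≤ L := ge_of_tendsto' h2 h1
    have h6 : L ≤ t1 := le_of_tendsto' h2 hle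
    have h7 := hcd L (by linarith) (by linarith)
    linarith
  have hfix : (stp f)^[k] d = d := by
    apply Function.iterate_fixed
    simp only [stp, hfd, add_zero]
  have hivt : s ∈ (fun t => (stp f)^[k] t - t) '' Icc t1 d := by
    apply intermediate_value_Icc ht1d.le
    · exact ((E.cstp.iterate k).sub continuous_id).continuousOn
    · simp only [hfix]
      exact ⟨by linarith, by linarith⟩
  obtain ⟨t, ⟨hta, htb⟩, htc⟩ := hivt
  simp only at htc
  have hft : f t ≤ 0 := by
    rcases htb.eq_or_lt with h | h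
    · rw [h, hfd]
    · exact (hcd t (by linarith) h).le
  have hfu : f u ≤ f t := by
    have := @hη3 t (by rw [Real.dist_eq, abs_lt]; constructor <;> linarith)
    rw [hfd, Real.dist_eq, abs_lt] at this
    linarith [this.1]
  have hivt2 : f t ∈ f '' Icc 0 u := by
    apply intermediate_value_Icc' hu0.le E.c.continuousOn
    rw [E.z]
    exact ⟨hfu, hft⟩
  obtain ⟨x, ⟨hxa, hxb⟩, hxc⟩ := hivt2
  have hd1 := E.diff hxc k
  have h1 : (stp f)^[k] x = x + s := by linarith
  have h2 : (stp f)^[k] t = t + s := by linarith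
  have h3 : f (x + s) = f (t + s) := by
    rw [← h1, ← h2, E.comm, E.comm, hxc]
  have h4 := @hη1 (x + s) (by rw [Real.dist_eq, abs_lt]; constructor <;> linarith)
  have h5 := @hη2 (t + s) (by rw [Real.dist_eq, abs_lt]; constructor <;> linarith)
  rw [Real.dist_eq, abs_lt] at h4 h5
  linarith [h4.1, h5.2]

lemma case3 (E : SOL f) {x1 x2 : ℝ} (hx1 : 0 < x1) (hf1 : f x1 < 0) (hx2 : x2 < 0)
    (hf2 : 0 < f x2) : ∀ x, x ≠ 0 → x * f x < 0 := by
  have key : ∀ {g : ℝ → ℝ} (_ : SOL g) {y1 y2 : ℝ} (_ : 0 < y1) (_ : g y1 < 0) (_ : y2 < 0)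
      (_ : 0 < g y2), ∀ δ, 0 < δ → ∃ x, 0 < x ∧ x ≤ δ ∧ g x < 0 := by
    intro g G y1 y2 h1 h2 h3 h4 δ hδ
    by_contra hcon
    push Not at hcon
    obtain ⟨c, hc0, hc⟩ := G.zOne hδ (fun x hx0 hx1 => by
      rcases hx0.eq_or_lt with h | h
      · rw [← h, G.z]
      · exact hcon x h hx1) h1 h2
    exact G.nOne hc0 hc h1 h2 h3 h4
  have h1 := key E hx1 hf1 hx2 hf2
  have h2 := key E.refl (y1 := -x2) (y2 := -x1) (by linarith) (by simpa using hf2) (by linarith)
    (by simpa using hf1)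
  have h3 := E.nTwo h1 (fun δ hδ => by
    obtain ⟨x, a, b, d⟩ := h2 δ hδ
    exact ⟨-x, by linarith, by linarith, by linarith⟩)
  have h4 := E.refl.nTwo h2 (fun δ hδ => by
    obtain ⟨x, a, b, d⟩ := h1 δ hδ
    refine ⟨-x, by linarith, by linarith, ?_⟩
    simpa using d)
  intro x hx
  rcases lt_or_gt_of_ne hx with h | h
  · have := h4 (-x) (by linarith)
    rw [neg_neg] at this
    nlinarith
  · have := h3 x h
    nlinarith

end SOL

/-! ### Sign-reversing solutions -/

structure SR (f : ℝ → ℝ) : Prop extends SOL f where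
  s : ∀ x, x ≠ 0 → x * f x < 0

namespace SR

variable {f : ℝ → ℝ}

lemma ne (E : SR f) {x : ℝ} (hx : x ≠ 0) : f x ≠ 0 := by
  intro h
  have := E.s x hx
  rw [h, mul_zero] at this
  exact lt_irrefl _ this

lemma pos (E : SR f) {x : ℝ} (hx : x < 0) : 0 < f x := by
  have := E.s x hx.ne
  nlinarith

lemma neg (E : SR f) {x : ℝ} (hx : 0 < x) : f x < 0 := by
  have := E.s x hx.ne'
  nlinarith

lemma refl' (E : SR f) : SR (fun x => -f (-x)) where
  toSOL := E.toSOL.refl
  s := by
    intro x hx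
    have := E.s (-x) (neg_ne_zero.mpr hx)
    linarith

lemma cm (E : SR f) (x : ℝ) : stp f (f x) = f (stp f x) := (E.eq x).symm

lemma cmn (E : SR f) (n : ℕ) (x : ℝ) : stp f (f^[n] x) = f^[n] (stp f x) := by
  induction n with
  | zero => rfl
  | succ n ih => rw [Function.iterate_succ_apply', Function.iterate_succ_apply', E.cm, ih]

/-- the absolute value relation in the contracting zone -/
lemma abP (E : SR f) {x : ℝ} (h : 0 < x * stp f x) : |x| = |f x| + |stp f x| := by
  have hx : x ≠ 0 := by rintro rfl; simp at h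
  rcases lt_or_gt_of_ne hx with h1 | h1
  · have h2 := E.pos h1
    have h3 : stp f x < 0 := by nlinarith
    rw [abs_of_neg h1, abs_of_pos h2, abs_of_neg h3]
    simp only [stp]
    ring
  · have h2 := E.neg h1
    have h3 : 0 < stp f x := by nlinarith
    rw [abs_of_pos h1, abs_of_neg h2, abs_of_pos h3]
    simp only [stp]
    ring

/-- the absolute value relation in the expanding zone -/
lemma abN (E : SR f) {x : ℝ} (h : x * stp f x ≤ 0) : |f x| = |x| + |stp f x| := by
  rcases lt_trichotomy x 0 with h1 | h1 | h1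
  · have h2 := E.pos h1
    have h3 : 0 ≤ stp f x := by nlinarith
    rw [abs_of_neg h1, abs_of_pos h2, abs_of_nonneg h3]
    simp only [stp]
    ring
  · rw [h1]; simp [stp, E.z]
  · have h2 := E.neg h1
    have h3 : stp f x ≤ 0 := by nlinarith
    rw [abs_of_pos h1, abs_of_neg h2, abs_of_nonpos h3]
    simp only [stp]
    ring

lemma inv1 (E : SR f) {x : ℝ} (h : 0 < x * stp f x) : 0 < f x * stp f (f x) := by
  have hx : x ≠ 0 := by rintro rfl; simp at h
  rw [E.cm]
  rcases lt_or_gt_of_ne hx with h1 | h1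
  · have h2 := E.pos h1
    have h3 : stp f x < 0 := by nlinarith
    exact mul_pos h2 (E.pos h3)
  · have h2 := E.neg h1
    have h3 : 0 < stp f x := by nlinarith
    exact mul_pos_of_neg_of_neg h2 (E.neg h3)

lemma inv2 (E : SR f) {x : ℝ} (h : x * stp f x ≤ 0) : f x * stp f (f x) ≤ 0 := by
  rw [E.cm]
  rcases lt_trichotomy x 0 with h1 | h1 | h1
  · have h2 := E.pos h1
    have h3 : 0 ≤ stp f x := by nlinarith
    rcases h3.eq_or_lt with h4 | h4
    · rw [← h4, E.z, mul_zero]
    · exact (mul_neg_of_pos_of_neg h2 (E.neg h4)).le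
  · rw [h1, E.z, zero_mul]
  · have h2 := E.neg h1
    have h3 : stp f x ≤ 0 := by nlinarith
    rcases h3.eq_or_lt with h4 | h4
    · rw [h4, E.z, mul_zero]
    · exact (mul_neg_of_neg_of_pos h2 (E.pos h4)).le

lemma inv1n (E : SR f) {x : ℝ} (h : 0 < x * stp f x) (n : ℕ) :
    0 < f^[n] x * stp f (f^[n] x) := by
  induction n with
  | zero => exact h
  | succ n ih => rw [Function.iterate_succ_apply']; exact E.inv1 ih

lemma inv2n (E : SR f) {x : ℝ} (h : x * stp f x ≤ 0) (n : ℕ) :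
    f^[n] x * stp f (f^[n] x) ≤ 0 ∧ |x| ≤ |f^[n] x| := by
  induction n with
  | zero => exact ⟨h, le_refl _⟩
  | succ n ih =>
    rw [Function.iterate_succ_apply']
    refine ⟨E.inv2 ih.1, ?_⟩
    rw [E.abN ih.1]
    have := abs_nonneg (stp f (f^[n] x))
    linarith [ih.2]

lemma gstep (E : SR f) {x : ℝ} (h : 0 < x * stp f x) : 0 < stp f x * stp f (stp f x) := by
  by_contra hcon
  push Not at hcon
  have hw : stp f x ≠ 0 := by
    intro h1
    rw [h1, mul_zero] at h
    exact lt_irrefl _ h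
  have hwp : 0 < |stp f x| := abs_pos.mpr hw
  have hn : ∀ n : ℕ, |f^[n] x| ≤ |x| - n * |stp f x| := by
    intro n
    induction n with
    | zero => simp
    | succ n ih =>
      have h1 := E.abP (E.inv1n h n)
      have h2 := (E.inv2n hcon n).2
      rw [← E.cmn] at h2
      rw [Function.iterate_succ_apply']
      push_cast
      linarith
  obtain ⟨n, hn'⟩ := exists_nat_gt (|x| / |stp f x|)
  rw [div_lt_iff₀ hwp] at hn'
  have h1 := hn n
  have h2 := abs_nonneg (f^[n] x)
  linarith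

lemma noComp (E : SR f) {q : ℝ} (hq : 0 < q) (h : ∀ t, 0 < t → t < q → 0 < stp f t)
    (hq0 : stp f q = 0) : False := by
  have hFc := E.cstp
  have hV := h (q / 2) (by linarith) (by linarith)
  obtain ⟨x, ⟨hx0, hx1⟩, hx2⟩ : stp f (q / 2) / 2 ∈ stp f '' Icc 0 (q / 2) := by
    apply intermediate_value_Icc (by linarith) hFc.continuousOn
    constructor
    · simp only [stp, E.z]
      simp only [stp] at hV
      linarith
    · linarith
  obtain ⟨x', ⟨hx'0, hx'1⟩, hx'2⟩ : stp f (q / 2) / 2 ∈ stp f '' Icc (q / 2) q := by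
    apply intermediate_value_Icc' (by linarith) hFc.continuousOn
    rw [hq0]
    constructor <;> linarith
  have hxne : x ≠ 0 := by
    rintro rfl
    simp only [stp, E.z] at hx2 hV
    linarith
  have hxpos : 0 < x := lt_of_le_of_ne hx0 (Ne.symm hxne)
  have hxq : x ≠ q / 2 := by
    intro h1
    rw [h1] at hx2
    linarith
  have hxlt : x < q / 2 := lt_of_le_of_ne hx1 hxq
  have hx'q : x' ≠ q := by
    intro h1
    rw [h1, hq0] at hx'2
    linarith
  have hx'lt : x' < q := lt_of_le_of_ne hx'1 hx'q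
  have hFx : stp f x = stp f x' := by rw [hx2, hx'2]
  set d := x' - x with hd
  have hd0 : 0 < d := by linarith
  set G : ℝ → ℝ := fun v => f (f v) with hG
  have hGc : Continuous G := E.c.comp E.c
  have hGpos : ∀ v, 0 < v → 0 < G v := fun v hv => E.pos (E.neg hv)
  have hGlt : ∀ v, 0 < v → v < q → G v < v := by
    intro v hv0 hv1
    have h1 : 0 < v * stp f v := mul_pos hv0 (h v hv0 hv1)
    have h2 := E.abP h1
    have h3 := E.abP (E.inv1 h1)
    have h4 : 0 < |stp f v| := abs_pos.mpr (h v hv0 hv1).ne'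
    have h5 := abs_nonneg (stp f (f v))
    have h6 : |G v| < |v| := by simp only [hG]; linarith
    rwa [abs_of_pos hv0, abs_of_pos (hGpos v hv0)] at h6
  have hpair : ∀ n : ℕ, stp f (G^[n] x) = stp f (G^[n] x') ∧ G^[n] x' - G^[n] x = d ∧
      0 < G^[n] x := by
    intro n
    induction n with
    | zero => exact ⟨hFx, rfl, hxpos⟩
    | succ n ih =>
      obtain ⟨h1, h2, h3⟩ := ih
      rw [Function.iterate_succ_apply', Function.iterate_succ_apply']
      set u := G^[n] x
      set u' := G^[n] x'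
      have h4 : stp f (f u) = stp f (f u') := by rw [E.cm, E.cm, h1]
      have h5 : stp f (f (f u)) = stp f (f (f u')) := by rw [E.cm (f u), E.cm (f u'), h4]
      refine ⟨h5, ?_, hGpos _ h3⟩
      simp only [hG]
      simp only [stp] at h1 h4
      linarith
  have hlt : ∀ n : ℕ, G^[n] x' < q := by
    intro n
    induction n with
    | zero => exact hx'lt
    | succ n ih =>
      rw [Function.iterate_succ_apply']
      have h1 := hpair n
      exact (hGlt _ (by linarith [h1.2.1, h1.2.2]) ih).trans ih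
  have hanti : Antitone (fun n : ℕ => G^[n] x') := by
    apply antitone_nat_of_succ_le
    intro n
    rw [Function.iterate_succ_apply']
    have h1 := hpair n
    exact (hGlt _ (by linarith [h1.2.1, h1.2.2]) (hlt n)).le
  have hlow : ∀ n : ℕ, d ≤ G^[n] x' := by
    intro n
    have h1 := hpair n
    linarith [h1.2.1, h1.2.2]
  have h2 := tendsto_atTop_ciInf hanti ⟨d, by rintro _ ⟨k, rfl⟩; exact hlow k⟩
  set L := ⨅ i, G^[i] x' with hL
  have h3 : G L = L := isFixedPt_of_tendsto_iterate h2 hGc.continuousAt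
  have h5 : d ≤ L := ge_of_tendsto' h2 hlow
  have h6 : L ≤ x' := hanti.le_of_tendsto h2 0
  have h7 := hGlt L (by linarith) (by linarith)
  linarith

lemma dich (E : SR f) : (∀ x, 0 < x → 0 < stp f x) ∨ (∀ x, 0 < x → stp f x ≤ 0) := by
  by_contra hcon
  push Not at hcon
  obtain ⟨⟨y, hy0, hy⟩, ⟨x, hx0, hx⟩⟩ := hcon
  have hFc := E.cstp
  have hF0 : stp f 0 = 0 := by simp [stp, E.z]
  obtain ⟨δ, hδ0, hδ⟩ : ∃ δ, 0 < δ ∧ ∀ t, 0 < t → t ≤ δ → 0 < stp f t := by
    set S : Set ℝ := Icc 0 x ∩ {t | stp f t ≤ 0} with hS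
    have hSc : IsCompact S := isCompact_Icc.inter_right (isClosed_le hFc continuous_const)
    have hSn : S.Nonempty := ⟨0, ⟨le_refl _, hx0.le⟩, hF0.le⟩
    obtain ⟨p, hpS, hpmax⟩ := hSc.exists_isMaxOn hSn continuous_id.continuousOn
    obtain ⟨⟨hp1, hp2⟩, hp3⟩ := hpS
    have hp3 : stp f p ≤ 0 := hp3
    have hgt : ∀ t, p < t → t ≤ x → 0 < stp f t := by
      intro t h1 h2
      by_contra h3
      push Not at h3
      have h4 : t ∈ S := ⟨⟨by linarith, h2⟩, h3⟩
      have h5 : t ≤ p := hpmax h4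
      linarith
    rcases hp1.eq_or_lt with h1 | h1
    · exact ⟨x, hx0, fun t ht0 ht1 => hgt t (by linarith) ht1⟩
    · refine ⟨stp f x, hx, ?_⟩
      intro s hs0 hs1
      obtain ⟨t, ⟨ht0, ht1⟩, ht2⟩ : s ∈ stp f '' Icc p x := by
        apply intermediate_value_Icc hp2 hFc.continuousOn
        exact ⟨by linarith, hs1⟩
      have h2 : 0 < t * stp f t := by
        rw [ht2]
        exact mul_pos (by linarith) hs0
      have h3 := E.gstep h2
      rw [ht2] at h3
      exact pos_of_mul_pos_right h3 hs0.le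
  have hδy : δ < y := by
    by_contra h1
    push Not at h1
    have := hδ y hy0 h1
    linarith
  set T : Set ℝ := Icc δ y ∩ {t | stp f t ≤ 0} with hT
  have hTc : IsCompact T := isCompact_Icc.inter_right (isClosed_le hFc continuous_const)
  have hTn : T.Nonempty := ⟨y, ⟨hδy.le, le_refl _⟩, hy⟩
  obtain ⟨q, hqT, hqmin⟩ := hTc.exists_isMinOn hTn continuous_id.continuousOn
  obtain ⟨⟨hq1, hq2⟩, hq3⟩ := hqT
  have hq3 : stp f q ≤ 0 := hq3
  have hq4 : stp f q = 0 := by
    obtain ⟨t, ⟨ht0, ht1⟩, ht2⟩ : (0 : ℝ) ∈ stp f '' Icc δ q := by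
      apply intermediate_value_Icc' hq1 hFc.continuousOn
      exact ⟨hq3, (hδ δ hδ0 (le_refl _)).le⟩
    have h3 : t ∈ T := ⟨⟨ht0, by linarith⟩, ht2.le⟩
    have h4 : q ≤ t := hqmin h3
    have h5 : t = q := le_antisymm ht1 h4
    rw [← h5]
    exact ht2
  refine E.noComp (by linarith) (fun t ht0 ht1 => ?_) hq4
  rcases le_or_gt t δ with h1 | h1
  · exact hδ t ht0 h1
  · by_contra h2
    push Not at h2
    have h3 : t ∈ T := ⟨⟨h1.le, by linarith⟩, h2⟩
    have h4 : q ≤ t := hqmin h3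
    linarith

lemma fullN (E : SR f) (hN : ∀ x, x * stp f x ≤ 0) {w : ℝ} (hw : 0 < w) (hw0 : stp f w = 0) :
    ∀ t, |t| ≤ w → stp f t = 0 := by
  have hfw : f w = -w := by simp only [stp] at hw0; linarith
  have hFw : stp f (-w) = 0 := by
    rw [← hfw, E.cm, hw0, E.z]
  have hfw' : f (-w) = w := by simp only [stp] at hFw; linarith
  have hzero : ∀ u, f u = 0 → u = 0 := by
    intro u hu
    by_contra h
    exact E.ne h hu
  have hmap : ∀ t, |t| ≤ w → |f t| ≤ w := by
    intro t ht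
    rw [abs_le] at ht
    rcases lt_trichotomy t 0 with h1 | h1 | h1
    · rw [abs_of_pos (E.pos h1)]
      by_contra h2
      push Not at h2
      obtain ⟨s, ⟨hs0, hs1⟩, hs2⟩ : w ∈ f '' Icc t 0 := by
        apply intermediate_value_Icc' h1.le E.c.continuousOn
        rw [E.z]
        exact ⟨hw.le, h2.le⟩
      have h3 := E.cm s
      rw [hs2, hw0] at h3
      have h4 := hzero _ h3.symm
      simp only [stp, hs2] at h4
      have h5 : t = -w := by linarith [ht.1]
      rw [h5, hfw'] at h2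
      exact lt_irrefl _ h2
    · rw [h1, E.z, abs_zero]
      exact hw.le
    · rw [abs_of_neg (E.neg h1)]
      by_contra h2
      push Not at h2
      obtain ⟨s, ⟨hs0, hs1⟩, hs2⟩ : -w ∈ f '' Icc 0 t := by
        apply intermediate_value_Icc' h1.le E.c.continuousOn
        rw [E.z]
        exact ⟨by linarith, by linarith⟩
      have h3 := E.cm s
      rw [hs2, hFw] at h3
      have h4 := hzero _ h3.symm
      simp only [stp, hs2] at h4
      have h5 : t = w := by linarith [ht.2]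
      rw [h5, hfw] at h2
      linarith
  have hmapn : ∀ t, |t| ≤ w → ∀ n : ℕ, |f^[n] t| ≤ w := by
    intro t ht n
    induction n with
    | zero => exact ht
    | succ n ih => rw [Function.iterate_succ_apply']; exact hmap _ ih
  intro t ht
  by_contra hcon
  have hFt : 0 < |stp f t| := abs_pos.mpr hcon
  have hn : ∀ n : ℕ, n * |stp f t| ≤ |f^[n] t| := by
    intro n
    induction n with
    | zero => simp
    | succ n ih =>
      rw [Function.iterate_succ_apply', E.abN (hN _), E.cmn]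
      have h1 := (E.inv2n (hN (stp f t)) n).2
      push_cast
      linarith
  obtain ⟨n, hn'⟩ := exists_nat_gt (w / |stp f t|)
  rw [div_lt_iff₀ hFt] at hn'
  have h1 := hn n
  have h2 := hmapn t ht n
  linarith

lemma allN (E : SR f) (hN : ∀ x, x * stp f x ≤ 0) {w : ℝ} (hw : 0 < w) (hw0 : stp f w = 0) :
    ∀ v, 0 < v → stp f v = 0 := by
  by_contra hcon
  push Not at hcon
  obtain ⟨v, hv0, hv⟩ := hcon
  have hFc := E.cstp
  have hwv : w < v := by
    by_contra h1
    push Not at h1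
    exact hv (E.fullN hN hw hw0 v (by rw [abs_of_pos hv0]; exact h1))
  set S : Set ℝ := Icc w v ∩ {x | stp f x = 0} with hS
  have hSc : IsCompact S := isCompact_Icc.inter_right (isClosed_eq hFc continuous_const)
  have hSn : S.Nonempty := ⟨w, ⟨le_refl _, hwv.le⟩, hw0⟩
  obtain ⟨c, hcS, hcmax⟩ := hSc.exists_isMaxOn hSn continuous_id.continuousOn
  obtain ⟨⟨hc1, hc2⟩, hc3⟩ := hcS
  have hc3 : stp f c = 0 := hc3
  have hc0 : 0 < c := hw.trans_le hc1
  have hz0 := E.fullN hN hc0 hc3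
  have hgt : ∀ t, c < t → stp f t < 0 := by
    intro t ht
    have h0 : 0 < t := by linarith
    have h1 : stp f t ≤ 0 := by
      have := hN t
      by_contra h2
      push Not at h2
      have := mul_pos h0 h2
      linarith
    refine lt_of_le_of_ne h1 ?_
    intro h2
    rcases le_or_gt t v with h3 | h3
    · have h4 : t ∈ S := ⟨⟨by linarith, h3⟩, h2⟩
      have h5 : t ≤ c := hcmax h4
      linarith
    · exact hv (E.fullN hN h0 h2 v (by rw [abs_of_pos hv0]; exact h3.le))
  have hp2 := hgt (c + 2) (by linarith)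
  have hp1 := hgt (c + 1) (by linarith)
  obtain ⟨η, hη0, hη⟩ := Metric.continuousAt_iff.mp (hFc.continuousAt (x := c + 2))
    (-stp f (c + 2) / 2) (by linarith)
  set y := min (min c (-stp f (c + 1))) (min (η / 4) (-stp f (c + 2) / 2)) with hy
  have hy0 : 0 < y := by
    have a1 : 0 < -stp f (c + 1) := by linarith
    have a2 : 0 < -stp f (c + 2) := by linarith
    rw [hy]
    positivity
  have hy1 : y ≤ c := (min_le_left _ _).trans (min_le_left _ _)
  have hy2 : y ≤ -stp f (c + 1) := (min_le_left _ _).trans (min_le_right _ _)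
  have hy3 : y ≤ η / 4 := (min_le_right _ _).trans (min_le_left _ _)
  have hy4 : y ≤ -stp f (c + 2) / 2 := (min_le_right _ _).trans (min_le_right _ _)
  obtain ⟨x, ⟨hx0, hx1⟩, hx2⟩ : -y ∈ stp f '' Icc c (c + 1) := by
    apply intermediate_value_Icc' (by linarith) hFc.continuousOn
    rw [hc3]
    exact ⟨by linarith, by linarith⟩
  have hfy : f y = -y := by
    have := hz0 y (by rw [abs_of_pos hy0]; exact hy1)
    simp only [stp] at this
    linarith
  have hfy' : f (-y) = y := by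
    have := hz0 (-y) (by rw [abs_neg, abs_of_pos hy0]; exact hy1)
    simp only [stp] at this
    linarith
  have htr : ∀ k : ℕ, stp f (x + k * (2 * y)) = -y := by
    intro k
    induction k with
    | zero => simpa using hx2
    | succ k ih =>
      set u := x + k * (2 * y) with hu
      have h1 : f u = -u - y := by simp only [stp] at ih; linarith
      have h2 : stp f (f u) = y := by rw [E.cm, ih, hfy']
      have h3 : f (f u) = u + 2 * y := by
        simp only [stp] at h2
        linarith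
      have h4 : stp f (f (f u)) = -y := by rw [E.cm, h2, hfy]
      rw [h3] at h4
      have h5 : x + ((k + 1 : ℕ) : ℝ) * (2 * y) = u + 2 * y := by
        rw [hu]; push_cast; ring
      rw [h5, h4]
  have h2y : 0 < 2 * y := by linarith
  set k := ⌈(c + 2 - x) / (2 * y)⌉₊ with hk
  have hk1 : (c + 2 - x) / (2 * y) ≤ k := Nat.le_ceil _
  have hk2 : (k : ℝ) < (c + 2 - x) / (2 * y) + 1 := Nat.ceil_lt_add_one (by
    apply div_nonneg _ h2y.le
    linarith)
  rw [div_le_iff₀ h2y] at hk1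
  have hk3 : (k : ℝ) * (2 * y) < (c + 2 - x) + 2 * y := by
    have h1 := mul_lt_mul_of_pos_right hk2 h2y
    rw [add_mul, div_mul_cancel₀ _ h2y.ne', one_mul] at h1
    exact h1
  have h1 := htr k
  have h2 := @hη (x + k * (2 * y)) (by
    rw [Real.dist_eq, abs_lt]
    constructor <;> linarith)
  rw [h1, Real.dist_eq, abs_lt] at h2
  linarith [h2.2]

theorem linear (E : SR f) : ∃ a : ℝ, ∀ x, f x = a * x := by
  rcases E.dich with h | h
  · -- contracting
    apply contract
    have hall : ∀ x, x ≠ 0 → 0 < x * stp f x := by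
      intro x hx
      rcases lt_or_gt_of_ne hx with h1 | h1
      · by_contra h2
        push Not at h2
        have h3 := E.inv2 h2
        have h4 := mul_pos (E.pos h1) (h (f x) (E.pos h1))
        linarith
      · exact mul_pos h1 (h x h1)
    refine ⟨E.c, E.eq, E.s, ?_⟩
    intro x hx
    have h1 := E.abP (hall x hx)
    have h2 : stp f x ≠ 0 := by
      intro h3
      have := hall x hx
      rw [h3, mul_zero] at this
      exact lt_irrefl _ this
    have h3 := abs_pos.mpr h2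
    linarith
  · have hN : ∀ x, x * stp f x ≤ 0 := by
      intro x
      rcases lt_trichotomy x 0 with h1 | h1 | h1
      · by_contra h2
        push Not at h2
        have h3 := E.inv1 h2
        have h4 := h (f x) (E.pos h1)
        have h5 := E.pos h1
        nlinarith
      · rw [h1, zero_mul]
      · have := h x h1
        nlinarith
    by_cases hz : ∃ w, w ≠ 0 ∧ stp f w = 0
    · obtain ⟨w0, hw0, hw1⟩ := hz
      obtain ⟨w, hw, hw2⟩ : ∃ w, 0 < w ∧ stp f w = 0 := by
        rcases lt_or_gt_of_ne hw0 with h1 | h1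
        · exact ⟨f w0, E.pos h1, by rw [E.cm, hw1, E.z]⟩
        · exact ⟨w0, h1, hw1⟩
      have hall := E.allN hN hw hw2
      refine ⟨-1, ?_⟩
      intro x
      have h1 := E.fullN hN (w := |x| + 1) (by positivity) (hall _ (by positivity)) x (by linarith)
      simp only [stp] at h1
      linarith
    · push Not at hz
      obtain ⟨M, -, hM⟩ := expand (ε := -1) (Or.inr rfl) (φ := stp f) E.cstp (by
        intro x
        have h1 : -1 * stp f x + stp f (stp f x) = f (stp f x) := by simp only [stp]; ring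
        have h2 : -1 * x + stp f x = f x := by simp only [stp]; ring
        rw [h1, h2, E.cm]) (by
        intro x hx
        have h1 := hN x
        have h2 : x * stp f x ≠ 0 := mul_ne_zero hx (hz x hx)
        have h3 := lt_of_le_of_ne h1 h2
        linarith) (by intro h1; norm_num at h1)
      refine ⟨-M - 1, ?_⟩
      intro x
      have := hM x
      simp only [stp] at this
      linarith

end SR

/-- Classification of all continuous solutions of `f (x + f x) = f x + f (f x)`: the linear maps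
and the maps that are linear with nonnegative slopes on each of the two half-lines. -/
theorem result (f : ℝ → ℝ) (hc : Continuous f) :
    (∀ x, f (x + f x) = f x + f (f x)) ↔
      ((∃ a : ℝ, ∀ x, f x = a * x) ∨
        ∃ a b : ℝ, 0 ≤ a ∧ 0 ≤ b ∧ ∀ x, f x = if 0 ≤ x then a * x else b * x) := by
  constructor
  · intro heq
    have E : SOL f := ⟨hc, heq⟩
    by_cases h1 : ∀ x, 0 ≤ x → 0 ≤ f x
    · exact Or.inr (E.case1 h1)
    by_cases h2 : ∀ x, x ≤ 0 → f x ≤ 0
    · right
      obtain ⟨a, b, ha, hb, hab⟩ := E.refl.case1 (fun x hx => by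
        have := h2 (-x) (by linarith)
        linarith)
      refine ⟨b, a, hb, ha, ?_⟩
      intro x
      have h3 := hab (-x)
      rw [neg_neg] at h3
      rcases lt_trichotomy x 0 with h | h | h
      · rw [if_pos (by linarith)] at h3
        rw [if_neg (by linarith)]
        linarith
      · rw [h, E.z]; simp
      · rw [if_neg (by linarith)] at h3
        rw [if_pos h.le]
        linarith
    push Not at h1 h2
    obtain ⟨x1, hx1, hf1⟩ := h1
    obtain ⟨x2, hx2, hf2⟩ := h2
    have hx1' : 0 < x1 := lt_of_le_of_ne hx1 (by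
      rintro rfl
      rw [E.z] at hf1
      exact lt_irrefl _ hf1)
    have hx2' : x2 < 0 := lt_of_le_of_ne hx2 (by
      rintro rfl
      rw [E.z] at hf2
      exact lt_irrefl _ hf2)
    left
    exact SR.linear ⟨E, E.case3 hx1' hf1 hx2' hf2⟩
  · rintro (⟨a, ha⟩ | ⟨a, b, ha, hb, hab⟩) x
    · simp only [ha]
      ring
    · rcases le_or_gt 0 x with h | h
      · have h1 : f x = a * x := by rw [hab, if_pos h]
        have h2 : 0 ≤ a * x := mul_nonneg ha h
        rw [h1, hab (x + a * x), hab (a * x), if_pos (by linarith), if_pos h2]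
        ring
      · have h1 : f x = b * x := by rw [hab, if_neg (by linarith)]
        have h2 : b * x ≤ 0 := mul_nonpos_of_nonneg_of_nonpos hb h.le
        rw [h1, hab (x + b * x), if_neg (by linarith)]
        have h3 : f (b * x) = b * (b * x) := by
          rcases h2.eq_or_lt with h4 | h4
          · rw [h4, hab 0]; simp
          · rw [hab, if_neg (by linarith)]
        rw [h3]
        ring

end Pool.Agent.Results.MP_12983e_an.AllSolutions
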